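import Pool.Agent.Helper53_BEL.All
import Pool.Agent.Helper65_BEL.FIN3
import Pool.Agent.Helper65_BEL.TRC
import Pool.Agent.Helper64_BEL.EMP
import Pool.Agent.Helper70_BEL.EIG
import Pool.Agent.Helper70_BEL.LON
import Pool.Agent.Helper70_BEL.TRW
import Pool.Agent.Helper62_BEL.TRL
import Pool.Agent.Helper32_BEL.INP
import Pool.Agent.Helper77_BEL.LPE
import Pool.Agent.Helper20_BEL.ULT
import Pool.Agent.Helper31_BEL.RLC
import Pool.Agent.Helper33_BEL.CLO
import Pool.Agent.Helper33_BEL.ENM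
import Pool.Agent.Helper33_BEL.SOB
import Pool.Agent.Helper90_BEL.AVO
import Pool.Agent.Helper9_BEL.LSM
import Pool.Agent.Helper22_BEL.BMP
import Pool.Agent.Helper76_BEL.TRN
import Pool.Agent.Helper24_BEL.LIN
import Pool.Agent.Helper23_BEL.NSH
import Pool.Agent.Helper35_BEL.CH2
import Pool.Agent.Helper35_BEL.SHL
import Pool.Agent.Helper41_BEL.LWL
import Pool.Agent.Helper60_BEL.PRD
import Pool.Agent.Helper60_BEL.GRW
import Pool.Agent.Helper69_BEL.IBP
import Pool.Agent.Helper30_BEL.LWU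
import Pool.Agent.Helper61_BEL.COM
import Pool.Agent.Helper61_BEL.ITR

/-!
# BEL: the final statement
-/

namespace Pool.Agent.BEL.H53

theorem lpeA : LpeStmt := H77.lpe H33.sob
theorem avoA : AvoStmt := H90.avo H76.trn
theorem lsmA : LsmStmt := H9.lsm (H70.lon H35.ch2)
theorem ultA : UltStmt := H20.ult lsmA (H23.nsh avoA)
theorem grwA : GrwStmt := H60.grw (H30.lwu (H24.lin ultA)) (H41.lwl H22.bmp)
theorem itrA : ItrStmt := H61.itr grwA H35.shl (H61.com H60.prd H69.ibp)
theorem inpA : InpStmt := H32.inp lpeA grwA itrA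
theorem eigA : EigStmt := H70.eig (H31.rlc avoA) H33.clo H33.enm H22.bmp
theorem empA : EmpStmt := H64.emp H33.sob
theorem trlA : TrlStmt := H62.trl (H70.trw lpeA)
theorem trcA : TrcStmt := H65.trc lpeA

theorem fin3A : Fin3Stmt := H65.fin3 empA eigA inpA trlA trcA wpcA core2

end Pool.Agent.BEL.H53
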