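import Pool.Agent.Helper53_BEL.Tm
import Pool.Agent.BEL.StmtsD

/-!
# BEL, row BKP: the backup lemma
-/

namespace Pool.Agent.BEL.H53

open MeasureTheory Filter Topology Set
open scoped InnerProductSpace ENNReal

noncomputable section

/-- averages: two nonnegative functions, both small at one point -/
theorem av_choose {r : ℕ} (F1 F2 : (Fin r → Bool) → ℝ) (a1 a2 : ℝ) (h1 : ∀ e, 0 ≤ F1 e)
    (h2 : ∀ e, 0 ≤ F2 e) (ha1 : 0 < a1) (ha2 : 0 < a2) (k1 : av F1 ≤ a1) (k2 : av F2 ≤ a2) :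
    ∃ e, F1 e ≤ 3 * a1 ∧ F2 e ≤ 3 * a2 := by
  by_contra hcon
  push Not at hcon
  have h3 : ∀ e, 1 ≤ F1 e / (3 * a1) + F2 e / (3 * a2) := by
    intro e
    by_cases h : F1 e ≤ 3 * a1
    · have h4 := hcon e h
      have h5 : 1 ≤ F2 e / (3 * a2) := by
        rw [le_div_iff₀ (by positivity)]; linarith
      have h6 : 0 ≤ F1 e / (3 * a1) := div_nonneg (h1 e) (by positivity)
      linarith
    · push Not at h
      have h5 : 1 ≤ F1 e / (3 * a1) := by
        rw [le_div_iff₀ (by positivity)]; linarith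
      have h6 : 0 ≤ F2 e / (3 * a2) := div_nonneg (h2 e) (by positivity)
      linarith
  have h4 : ∑ e : Fin r → Bool, (1 : ℝ) ≤ ∑ e, (F1 e / (3 * a1) + F2 e / (3 * a2)) :=
    Finset.sum_le_sum fun e _ => h3 e
  rw [Finset.sum_add_distrib, ← Finset.sum_div, ← Finset.sum_div] at h4
  have h5 : ∑ e : Fin r → Bool, (1 : ℝ) = 2 ^ r := by simp
  rw [h5] at h4
  unfold av at k1 k2
  have hp : (0 : ℝ) < 2 ^ r := by positivity
  have k1' : ∑ e, F1 e ≤ a1 * 2 ^ r := by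
    rw [one_div, inv_mul_le_iff₀ hp] at k1; linarith
  have k2' : ∑ e, F2 e ≤ a2 * 2 ^ r := by
    rw [one_div, inv_mul_le_iff₀ hp] at k2; linarith
  have h6 : (∑ e, F1 e) / (3 * a1) ≤ 2 ^ r / 3 := by
    rw [div_le_div_iff₀ (by positivity) (by norm_num)]
    nlinarith
  have h7 : (∑ e, F2 e) / (3 * a2) ≤ 2 ^ r / 3 := by
    rw [div_le_div_iff₀ (by positivity) (by norm_num)]
    nlinarith
  linarith

/-- pigeonhole -/
theorem freq_fin {ι : Type} [Finite ι] {P : ℕ → ι → Prop} (h : ∀ᶠ n in atTop, ∃ e, P n e) :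
    ∃ e, ∃ᶠ n in atTop, P n e := by
  by_contra hcon
  push Not at hcon
  have h1 : ∀ᶠ n in atTop, ∀ e, ¬ P n e := by
    rw [eventually_all]
    intro e
    have := hcon e
    simpa [Filter.not_frequently] using this
  obtain ⟨n, h2, h3⟩ := (h.and h1).exists
  obtain ⟨e, he⟩ := h2
  exact h3 e he

/-- square root trick -/
theorem norm_add_ge {K : Type} [NormedAddCommGroup K] [InnerProductSpace ℝ K] (x y : K) (δ : ℝ)
    (hδ : 0 < δ) (h : ⟪x, y⟫_ℝ ^ 2 ≤ δ ^ 4 / 4) : ‖x‖ - δ ≤ ‖x + y‖ := by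
  by_cases h0 : ‖x‖ ≤ δ
  · have := norm_nonneg (x + y)
    linarith
  push Not at h0
  have h1 : ‖x + y‖ ^ 2 = ‖x‖ ^ 2 + 2 * ⟪x, y⟫_ℝ + ‖y‖ ^ 2 := norm_add_sq_real x y
  have h2 : -(δ ^ 2 / 2) ≤ ⟪x, y⟫_ℝ := by
    have h3 : ⟪x, y⟫_ℝ ^ 2 ≤ (δ ^ 2 / 2) ^ 2 := by
      calc _ ≤ _ := h
        _ = _ := by ring
    exact (abs_le.1 (abs_le_of_sq_le_sq h3 (by positivity))).1
  have h3 : (‖x‖ - δ) ^ 2 ≤ ‖x + y‖ ^ 2 := by
    rw [h1]
    nlinarith [sq_nonneg ‖y‖]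
  exact abs_le_of_sq_le_sq' h3 (norm_nonneg _) |>.2

/-- existence of `c1` -/
theorem exists_c1 (al A1 A2 ε : ℝ) (hal : 0 < al) (h1 : 0 < A1) (h2 : 0 < A2) (hε : 0 < ε) :
    ∃ c1 : ℝ, 0 < c1 ∧ ∀ c, 0 < c → c ≤ c1 → A1 * c ^ al + A2 * c ^ 2 ≤ ε := by
  refine ⟨min (min 1 (ε / (2 * A2))) ((ε / (2 * A1)) ^ (1 / al)), by positivity, ?_⟩
  intro c hc hle
  have hc1 : c ≤ 1 := hle.trans ((min_le_left _ _).trans (min_le_left _ _))
  have hc2 : c ≤ ε / (2 * A2) := hle.trans ((min_le_left _ _).trans (min_le_right _ _))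
  have hc3 : c ≤ (ε / (2 * A1)) ^ (1 / al) := hle.trans (min_le_right _ _)
  have e1 : c ^ al ≤ ε / (2 * A1) := by
    calc c ^ al ≤ ((ε / (2 * A1)) ^ (1 / al)) ^ al := Real.rpow_le_rpow hc.le hc3 hal.le
      _ = ε / (2 * A1) := by
        rw [← Real.rpow_mul (by positivity), one_div, inv_mul_cancel₀ hal.ne', Real.rpow_one]
  have e2 : c ^ 2 ≤ ε / (2 * A2) := by nlinarith
  have e3 : A1 * c ^ al ≤ ε / 2 := by
    calc A1 * c ^ al ≤ A1 * (ε / (2 * A1)) := mul_le_mul_of_nonneg_left e1 h1.le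
      _ = ε / 2 := by field_simp
  have e4 : A2 * c ^ 2 ≤ ε / 2 := by
    calc A2 * c ^ 2 ≤ A2 * (ε / (2 * A2)) := mul_le_mul_of_nonneg_left e2 h2.le
      _ = ε / 2 := by field_simp
  linarith

/-- existence of `M` -/
theorem exists_M (al A ε : ℝ) (hal : 0 < al) (hA : 0 ≤ A) (hε : 0 < ε) :
    ∃ M : ℝ, 0 < M ∧ A * M ^ (-(2 / al)) ≤ ε := by
  refine ⟨((A + 1) / ε) ^ (al / 2), by positivity, ?_⟩
  rw [← Real.rpow_mul (by positivity)]
  have : al / 2 * -(2 / al) = -1 := by field_simp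
  rw [this, Real.rpow_neg_one]
  rw [inv_div, mul_div_assoc', div_le_iff₀ (by positivity)]
  nlinarith

/-- linear combination written with coefficients -/
theorem smul_sum_sg {E : Type} [NormedAddCommGroup E] [NormedSpace ℝ E] {r : ℕ} (q : ℝ)
    (g : Fin r → E) (ε : Fin r → Bool) :
    q • ∑ i, sg (ε i) • g i = ∑ i, (q * sg (ε i)) • g i := by
  rw [Finset.smul_sum]
  exact Finset.sum_congr rfl fun i _ => by rw [mul_smul]

theorem sg_sq (b : Bool) : sg b ^ 2 = 1 := by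
  unfold sg
  cases b <;> norm_num

theorem sum_coef_sq {r : ℕ} (hr : 0 < r) (L : ℝ) (ε : Fin r → Bool) :
    ∑ i, (L / Real.sqrt r * sg (ε i)) ^ 2 = L ^ 2 := by
  have h1 : ∀ i, (L / Real.sqrt r * sg (ε i)) ^ 2 = L ^ 2 / r := by
    intro i
    rw [mul_pow, sg_sq, div_pow, Real.sq_sqrt (by positivity), mul_one]
  rw [Finset.sum_congr rfl fun i _ => h1 i]
  have : (r : ℝ) ≠ 0 := by positivity
  simp
  field_simp

section main

variable {X : Type} [MeasurableSpace X] {μ : Measure X} [IsFiniteMeasure μ] {κ : Type}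
  {a al : ℝ} {b : HilbertBasis κ ℝ (Lp ℝ 2 μ)} {om : κ → ℝ}
  {W : ℝ → KK (Lp ℝ 2 μ) →L[ℝ] KK (Lp ℝ 2 μ)}
  {Z : ℕ → KK (Lp ℝ 2 μ) → ℝ → KK (Lp ℝ 2 μ)}
  {S : ℝ → KK (Lp ℝ 2 μ) → KK (Lp ℝ 2 μ)}

omit [IsFiniteMeasure μ] in
theorem hh_nonneg {κ : Type} (l : ℝ) (M s : ℝ) (hs : 0 ≤ s)
    (b : HilbertBasis κ ℝ (Lp ℝ 2 μ)) (J : Finset κ) (w v y : Lp ℝ 2 μ) (hl : 0 ≤ l) :
    0 ≤ hh μ a al l M s b J w v y := by
  unfold hh
  have e1 : 0 ≤ h1 μ al y := integral_nonneg fun x => by positivity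
  have e2 : 0 ≤ h2 μ al l w y := by
    unfold h2
    split_ifs
    · apply integral_nonneg
      intro x
      have : 0 ≤ mm (al - 2) l (w x) := by
        unfold mm
        exact Real.rpow_nonneg (le_min (abs_nonneg _) hl) _
      have h4 : 0 ≤ (y x) ^ 4 := by positivity
      exact mul_nonneg this h4
    · exact le_rfl
  have e3 : 0 ≤ h3 μ a al l M w y := integral_nonneg fun x => by positivity
  have e4 : 0 ≤ h4 μ a al l M w v y := integral_nonneg fun x => by positivity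
  have e5 : 0 ≤ lk μ b J (cfv μ a al M v) y := by unfold lk; positivity
  positivity

omit [IsFiniteMeasure μ] in
/-- the heart: one good block -/
theorem bkp_k (hgrq : GrqStmt) (hex3 : Ex3Stmt)
    (hgrp : Grp b om W) (hlim : IsLim W (fun n : ℕ => nem μ (gl a al n)) Z S)
    {m k : ℕ} (hk : 1 ≤ k) {J : Finset κ} (hJ : J.Nonempty) {M : ℝ}
    (V : KK (Lp ℝ 2 μ)) (v : ℝ → Lp ℝ 2 μ)
    (hSV : ∀ i, ‖S (tm m i) V‖ ≤ ‖V‖)
    {E : Type} [NormedAddCommGroup E] [InnerProductSpace ℝ E] (e : E →ₗᵢ[ℝ] KK (Lp ℝ 2 μ))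
    (Φ : ℝ → E →L[ℝ] E) (hLf : Lf μ a al M b W J v e Φ) {r : ℕ} (g : Fin r → E)
    (hJr : J.card ≤ r) (hg1 : ∀ a' : Fin r → ℝ, ‖Φ (tm m k) (∑ i, a' i • g i)‖ ^ 2 = ∑ i, a' i ^ 2)
    (G : ℕ → ℝ) (hG0 : ∀ j, 0 ≤ G j) (hGm : ∀ i j, i ≤ j → G j ≤ G i)
    (hg2 : ∀ j < k, ∀ a' : Fin r → ℝ,
      ‖Φ (tm m j) (∑ i, a' i • g i)‖ ^ 2 ≤ G j * ∑ i, a' i ^ 2)
    {L : ℝ} (hL : 0 < L) {Cp Ca : ℝ} (hCp : 0 < Cp)
    (hper : ∀ (l : ℝ) (Z0 Z1 : ℝ → KK (Lp ℝ 2 μ)) (c : E), 0 < l →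
      IsFl W (nem μ (gl a al l)) V Z0 → IsFl W (nem μ (gl a al l)) (V + e c) Z1 →
      ∀ t ∈ Icc (0 : ℝ) (tm m k), ‖Z1 t - Z0 t - e (Φ t c)‖ ^ 2 ≤
        Cp * ∫ r in (0 : ℝ)..(tm m k), hh μ a al l M (tm m k) b J (P2 (W r (Z0 r))) (v r)
          (P2 (W r (e (Φ r c)))))
    {b2 : ℕ → ℝ} {b3 b4 : ℝ}
    (havd : ∀ (l : ℝ) (Z0 : ℝ → KK (Lp ℝ 2 μ)), 0 < l → IsFl W (nem μ (gl a al l)) V Z0 →
      (2 < al → ∀ j < k, ∫ t in (tm m j)..(tm m (j + 1)),
        ∫ x, mm (al - 2) l (P2 (W t (Z0 t)) x) ∂μ ≤ b2 j) →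
      (∫ t in (0 : ℝ)..(tm m k), ∫ x, max (ql a al l (P2 (W t (Z0 t)) x) - M) 0 ∂μ ≤ b3) →
      (∀ t ∈ Icc (0 : ℝ) (tm m k), ∫ x, (min (ql a al l (P2 (W t (Z0 t)) x)) M -
        cf a al M (v t x)) ^ 2 ∂μ ≤ b4) →
      av (fun ε => ∫ t in (0 : ℝ)..(tm m k), hh μ a al l M (tm m k) b J (P2 (W t (Z0 t))) (v t)
        (P2 (W t (e (Φ t ((L / Real.sqrt r) • ∑ i, sg (ε i) • g i)))))) ≤ Ca)
    (hfin : Cp * Ca ≤ L ^ 2 / (3 * 65536))
    (he2 : 2 < al → ∀ᶠ n : ℕ in atTop, ∀ j < k, ∫ t in (tm m j)..(tm m (j + 1)),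
        ∫ x, mm (al - 2) (n : ℝ) (P2 (W t (Z n V t)) x) ∂μ ≤ b2 j)
    (he3 : ∀ᶠ n : ℕ in atTop, ∫ t in (0 : ℝ)..(tm m k),
        ∫ x, max (ql a al n (P2 (W t (Z n V t)) x) - M) 0 ∂μ ≤ b3)
    (he4 : ∀ᶠ n : ℕ in atTop, ∀ t ∈ Icc (0 : ℝ) (tm m k),
        ∫ x, (min (ql a al n (P2 (W t (Z n V t)) x)) M - cf a al M (v t x)) ^ 2 ∂μ ≤ b4)
    {δ : ℝ} (hδ : 0 < δ) (hip : (k : ℝ) * (L ^ 2 * G 0 * ‖V‖ ^ 2) / J.card ≤ δ ^ 4 / 12) :
    ∃ D : KK (Lp ℝ 2 μ), ‖D‖ ^ 2 ≤ G 0 * L ^ 2 ∧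
      (∀ i < k, ‖S (tm m i) V‖ - L / 256 - δ ≤ ‖S (tm m i) (V + D)‖) ∧
      L - L / 256 ≤ ‖S (tm m k) (V + D) - S (tm m k) V‖ := by
  classical
  obtain ⟨-, -, hWn, -, hWc, -⟩ := hgrq _ κ b om W hgrp
  have hJc : 0 < J.card := Finset.card_pos.2 hJ
  have hr : 0 < r := lt_of_lt_of_le hJc hJr
  have hrR : (0 : ℝ) < r := by exact_mod_cast hr
  have hJR : (0 : ℝ) < J.card := by exact_mod_cast hJc
  set cε : (Fin r → Bool) → E := fun ε => (L / Real.sqrt r) • ∑ i, sg (ε i) • g i with hcε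
  have hcε' : ∀ ε, cε ε = ∑ i, (L / Real.sqrt r * sg (ε i)) • g i := fun ε => smul_sum_sg _ _ _
  -- second functional
  set F2 : (Fin r → Bool) → ℝ := fun ε => ∑ i ∈ Finset.range k,
    ⟪S (tm m i) V, W (tm m i) (e (Φ (tm m i) (cε ε)))⟫_ℝ ^ 2 with hF2
  have hF2n : ∀ ε, 0 ≤ F2 ε := fun ε => Finset.sum_nonneg fun i _ => sq_nonneg _
  have hF2av : av F2 ≤ δ ^ 4 / 12 := by
    have e1 : av F2 = ∑ i ∈ Finset.range k,
        av (fun ε => ⟪S (tm m i) V, ∑ i', sg (ε i') •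
          (W (tm m i) (e (Φ (tm m i) ((L / Real.sqrt r) • g i'))))⟫_ℝ ^ 2) := by
      unfold av
      rw [← Finset.mul_sum, Finset.sum_comm]
      refine congrArg _ (Finset.sum_congr rfl fun i _ => Finset.sum_congr rfl fun ε _ => ?_)
      have e0 : W (tm m i) (e (Φ (tm m i) (cε ε))) = ∑ i', sg (ε i') •
          (W (tm m i) (e (Φ (tm m i) ((L / Real.sqrt r) • g i')))) := by
        simp only [hcε, Finset.smul_sum, map_sum, map_smul]
        exact Finset.sum_congr rfl fun i' _ => smul_comm _ _ _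
      rw [e0]
    rw [e1]
    have e2 : ∀ i ∈ Finset.range k,
        av (fun ε => ⟪S (tm m i) V, ∑ i', sg (ε i') •
          (W (tm m i) (e (Φ (tm m i) ((L / Real.sqrt r) • g i'))))⟫_ℝ ^ 2) ≤
          (L ^ 2 * G 0 * ‖V‖ ^ 2) / J.card := by
      intro i hi
      rw [Finset.mem_range] at hi
      have h3 := hex3 (KK (Lp ℝ 2 μ)) (L ^ 2 / r * G i) r
        (fun i' => W (tm m i) (e (Φ (tm m i) ((L / Real.sqrt r) • g i')))) (S (tm m i) V)
        (mul_nonneg (by positivity) (hG0 i)) ?_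
      · refine h3.trans ?_
        have h4 : ‖S (tm m i) V‖ ^ 2 ≤ ‖V‖ ^ 2 := by
          have := hSV i
          gcongr
        have h5 : L ^ 2 / r * G i ≤ L ^ 2 / J.card * G 0 := by
          apply mul_le_mul _ (hGm 0 i (Nat.zero_le _)) (hG0 i) (by positivity)
          apply div_le_div_of_nonneg_left (by positivity) hJR
          exact_mod_cast hJr
        calc L ^ 2 / r * G i * ‖S (tm m i) V‖ ^ 2 ≤ L ^ 2 / J.card * G 0 * ‖V‖ ^ 2 := by
              apply mul_le_mul h5 h4 (by positivity)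
              exact mul_nonneg (by positivity) (hG0 0)
          _ = _ := by ring
      · intro a'
        have h4 : ∑ i', a' i' • W (tm m i) (e (Φ (tm m i) ((L / Real.sqrt r) • g i'))) =
            W (tm m i) (e (Φ (tm m i) (∑ i', (L / Real.sqrt r * a' i') • g i'))) := by
          rw [map_sum, map_sum, map_sum]
          refine Finset.sum_congr rfl fun i' _ => ?_
          simp only [map_smul, mul_smul]
          exact smul_comm _ _ _
        rw [h4, hWn, e.norm_map]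
        refine (hg2 i hi _).trans (le_of_eq ?_)
        have h5 : ∀ i' : Fin r, (L / Real.sqrt r * a' i') ^ 2 = L ^ 2 / r * a' i' ^ 2 := by
          intro i'
          rw [mul_pow, div_pow, Real.sq_sqrt hrR.le]
        rw [Finset.sum_congr rfl fun i' _ => h5 i', ← Finset.mul_sum]
        ring
    refine (Finset.sum_le_sum e2).trans ?_
    rw [Finset.sum_const, Finset.card_range, nsmul_eq_mul]
    calc (k : ℝ) * ((L ^ 2 * G 0 * ‖V‖ ^ 2) / J.card) =
        (k : ℝ) * (L ^ 2 * G 0 * ‖V‖ ^ 2) / J.card := by ring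
      _ ≤ _ := hip
  -- eventually a good sign pattern
  have hev : ∀ᶠ n : ℕ in atTop, ∃ ε : Fin r → Bool,
      (∀ t ∈ Icc (0 : ℝ) (tm m k), ‖Z n (V + e (cε ε)) t - Z n V t - e (Φ t (cε ε))‖ ^ 2 ≤
        (L / 256) ^ 2) ∧ F2 ε ≤ δ ^ 4 / 4 := by
    have he2' : ∀ᶠ n : ℕ in atTop, (2 < al → ∀ j < k, ∫ t in (tm m j)..(tm m (j + 1)),
        ∫ x, mm (al - 2) (n : ℝ) (P2 (W t (Z n V t)) x) ∂μ ≤ b2 j) := by
      by_cases h : 2 < al
      · filter_upwards [he2 h] with n hn _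
        exact hn
      · exact Eventually.of_forall fun n h' => absurd h' h
    filter_upwards [he2', he3, he4, eventually_ge_atTop 1] with n hn2 hn3 hn4 hn1
    have hl : (0 : ℝ) < n := by exact_mod_cast hn1
    have hA := havd n (Z n V) hl (hlim.fl n V) hn2 hn3 hn4
    set F1 : (Fin r → Bool) → ℝ := fun ε => Cp * ∫ t in (0 : ℝ)..(tm m k),
      hh μ a al n M (tm m k) b J (P2 (W t (Z n V t))) (v t) (P2 (W t (e (Φ t (cε ε))))) with hF1
    have hF1n : ∀ ε, 0 ≤ F1 ε := by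
      intro ε
      apply mul_nonneg hCp.le
      apply intervalIntegral.integral_nonneg (tm_nonneg m k)
      intro t _
      exact hh_nonneg _ _ _ (tm_nonneg m k) _ _ _ _ _ hl.le
    have hF1av : av F1 ≤ L ^ 2 / (3 * 65536) := by
      have e1 : av F1 = Cp * av (fun ε => ∫ t in (0 : ℝ)..(tm m k),
          hh μ a al n M (tm m k) b J (P2 (W t (Z n V t))) (v t)
            (P2 (W t (e (Φ t (cε ε)))))) := by
        unfold av
        rw [hF1, ← Finset.mul_sum]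
        ring
      rw [e1]
      exact (mul_le_mul_of_nonneg_left hA hCp.le).trans hfin
    obtain ⟨ε, h1, h2⟩ := av_choose F1 F2 _ _ hF1n hF2n (by positivity) (by positivity) hF1av
      hF2av
    refine ⟨ε, ?_, ?_⟩
    · intro t ht
      refine (hper n (Z n V) (Z n (V + e (cε ε))) (cε ε) hl (hlim.fl n V) (hlim.fl n _) t
        ht).trans (h1.trans (le_of_eq ?_))
      ring
    · refine h2.trans (le_of_eq ?_)
      ring
  obtain ⟨ε, hfr⟩ := freq_fin hev
  -- limit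
  have hlimit : ∀ i ≤ k, ‖S (tm m i) (V + e (cε ε)) - S (tm m i) V -
      W (tm m i) (e (Φ (tm m i) (cε ε)))‖ ≤ L / 256 := by
    intro i hi
    have ht : tm m i ∈ Icc (0 : ℝ) (tm m k) := ⟨tm_nonneg m i, tm_mono m hi⟩
    have h1 : Tendsto (fun n : ℕ => W (tm m i) (Z n (V + e (cε ε)) (tm m i))) atTop
        (𝓝 (S (tm m i) (V + e (cε ε)))) :=
      (hlim.lim (V + e (cε ε)) (tm m k)).tendsto_at ht
    have h2 : Tendsto (fun n : ℕ => W (tm m i) (Z n V (tm m i))) atTop (𝓝 (S (tm m i) V)) :=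
      (hlim.lim V (tm m k)).tendsto_at ht
    have h3 := ((h1.sub h2).sub_const (W (tm m i) (e (Φ (tm m i) (cε ε))))).norm
    have hcl : IsClosed (Iic (L / 256)) := isClosed_Iic
    refine hcl.mem_of_frequently_of_tendsto ?_ h3
    refine hfr.mono ?_
    intro n hn
    have h4 := hn.1 _ ht
    rw [← map_sub, ← map_sub, mem_Iic, hWn]
    exact abs_le_of_sq_le_sq' h4 (by positivity) |>.2
  have hF2ε : F2 ε ≤ δ ^ 4 / 4 := by
    obtain ⟨n, hn⟩ := hfr.exists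
    exact hn.2
  refine ⟨e (cε ε), ?_, ?_, ?_⟩
  · rw [e.norm_map]
    have h1 := hg2 0 (by omega) (fun i => L / Real.sqrt r * sg (ε i))
    rw [tm_zero, hLf.zero, sum_coef_sq hr, ← hcε'] at h1
    exact h1
  · intro i hi
    have h1 := hlimit i hi.le
    have h2 : ⟪S (tm m i) V, W (tm m i) (e (Φ (tm m i) (cε ε)))⟫_ℝ ^ 2 ≤ δ ^ 4 / 4 := by
      refine le_trans ?_ hF2ε
      exact Finset.single_le_sum (f := fun i =>
        ⟪S (tm m i) V, W (tm m i) (e (Φ (tm m i) (cε ε)))⟫_ℝ ^ 2)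
        (fun j _ => sq_nonneg _) (Finset.mem_range.2 hi)
    have h3 := norm_add_ge _ _ δ hδ h2
    have h4 : ‖S (tm m i) V + W (tm m i) (e (Φ (tm m i) (cε ε)))‖ ≤
        ‖S (tm m i) (V + e (cε ε))‖ + L / 256 := by
      calc ‖S (tm m i) V + W (tm m i) (e (Φ (tm m i) (cε ε)))‖
          = ‖S (tm m i) (V + e (cε ε)) - (S (tm m i) (V + e (cε ε)) - S (tm m i) V -
              W (tm m i) (e (Φ (tm m i) (cε ε))))‖ := by
            congr 1
            abel
        _ ≤ _ := (norm_sub_le _ _).trans (by linarith)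
    linarith
  · have h1 := hlimit k le_rfl
    have h2 : ‖W (tm m k) (e (Φ (tm m k) (cε ε)))‖ = L := by
      rw [hWn, e.norm_map]
      have h3 := hg1 (fun i => L / Real.sqrt r * sg (ε i))
      rw [← hcε', sum_coef_sq hr] at h3
      have h4 : 0 ≤ ‖Φ (tm m k) (cε ε)‖ := norm_nonneg _
      nlinarith [h3, h4, hL]
    have h3 : ‖W (tm m k) (e (Φ (tm m k) (cε ε)))‖ ≤
        ‖S (tm m k) (V + e (cε ε)) - S (tm m k) V‖ + L / 256 := by
      calc ‖W (tm m k) (e (Φ (tm m k) (cε ε)))‖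
          = ‖(S (tm m k) (V + e (cε ε)) - S (tm m k) V) - (S (tm m k) (V + e (cε ε)) -
              S (tm m k) V - W (tm m k) (e (Φ (tm m k) (cε ε))))‖ := by
            congr 1
            abel
        _ ≤ _ := (norm_sub_le _ _).trans (by linarith)
    linarith

/-- the size of the backup datum -/
theorem size_D {al : ℝ} {m k : ℕ} (hprm : Prm al m) (hk : 1 ≤ k) {c : ℝ} (hc : 0 < c) :
    Gr al m (k - 1) * (8 * c * (2 : ℝ) ^ (-((m * k : ℝ) / al))) ^ 2 ≤
      (8 * Real.sqrt (Map al m / nup al m) * c *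
        (2 : ℝ) ^ (-((m * k : ℝ) * (1 / al - lam al / 2)))) ^ 2 := by
  have h1 := Map_pos al m
  have h2 := nup_pos hprm
  have hlam := lam_pos hprm.al_pos
  unfold Gr
  rw [mup_pow, mul_pow, mul_pow, mul_pow, mul_pow, mul_pow, Real.sq_sqrt (by positivity)]
  have e1 : ((2 : ℝ) ^ (-((m * k : ℝ) / al))) ^ 2 = (2 : ℝ) ^ (-((m * k : ℝ) / al) * 2) := by
    rw [← Real.rpow_natCast, ← Real.rpow_mul (by norm_num)]
    norm_num
  have e2 : ((2 : ℝ) ^ (-((m * k : ℝ) * (1 / al - lam al / 2)))) ^ 2 =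
      (2 : ℝ) ^ (-((m * k : ℝ) * (1 / al - lam al / 2)) * 2) := by
    rw [← Real.rpow_natCast, ← Real.rpow_mul (by norm_num)]
    norm_num
  rw [e1, e2]
  have e3 : (2 : ℝ) ^ (lam al * m * ((k - 1 : ℕ) : ℝ)) * (2 : ℝ) ^ (-((m * k : ℝ) / al) * 2) ≤
      (2 : ℝ) ^ (-((m * k : ℝ) * (1 / al - lam al / 2)) * 2) := by
    rw [← Real.rpow_add (by norm_num)]
    apply Real.rpow_le_rpow_of_exponent_le (by norm_num)
    rw [Nat.cast_sub hk]
    have h3 : 0 ≤ lam al * m := by positivity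
    push_cast
    have h4 : -((m * k : ℝ) * (1 / al - lam al / 2)) * 2 =
        lam al * m * k + -((m * k : ℝ) / al) * 2 := by ring
    rw [h4]
    nlinarith
  calc Map al m / nup al m * (2 : ℝ) ^ (lam al * m * ((k - 1 : ℕ) : ℝ)) *
        (8 ^ 2 * c ^ 2 * (2 : ℝ) ^ (-((m * k : ℝ) / al) * 2))
      = (8 ^ 2 * (Map al m / nup al m) * c ^ 2) * ((2 : ℝ) ^ (lam al * m * ((k - 1 : ℕ) : ℝ)) *
          (2 : ℝ) ^ (-((m * k : ℝ) / al) * 2)) := by ring
    _ ≤ (8 ^ 2 * (Map al m / nup al m) * c ^ 2) *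
          (2 : ℝ) ^ (-((m * k : ℝ) * (1 / al - lam al / 2)) * 2) := by
        apply mul_le_mul_of_nonneg_left e3 (by positivity)
    _ = _ := by ring

theorem bkp (hgrq : GrqStmt) (hcgl : CglStmt) (hctj : CtjStmt) (hex3 : Ex3Stmt)
    (hperS : PerStmt) (havdS : AvdStmt) (hdspS : DspStmt) (hcfl : CflStmt) (hspr : SprStmt)
    (hblsS : BlsStmt) (hlku : LkuStmt) (hnu1S : Nu1Stmt) (hnu2S : Nu2Stmt) (hgal : GalStmt)
    (hgdf : GdfStmt) : BkpStmt := by
  intro X _ μ _ κ a al b om R W Js hC Z S hlim m C0 hprm hC0 hub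
  have ha := hC.a_pos
  have hal := hC.al_pos
  have hgrp := hC.grp
  have hm := Pool.Agent.BEL.H53.Prm.mpos hprm
  obtain ⟨-, -, hWn, -, -, -⟩ := hgrq _ κ b om W hgrp
  obtain ⟨CW, hCW, hj1⟩ := hC.j1
  set mX := μ.real univ with hmX'
  have hmX : 0 ≤ mX := measureReal_nonneg
  obtain ⟨Cp, hCp, hper⟩ := hperS a al ha hal
  obtain ⟨Ca, hCa, havd⟩ := havdS al CW mX hal hCW hmX
  obtain ⟨Cd, hCd, hdsp⟩ := hdspS a al mX ha hal hmX
  obtain ⟨Cb, hCb, hbls⟩ := hblsS a al mX ha hal hmX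
  obtain ⟨Cn1, hCn1, hnu1⟩ := hnu1S al m hprm
  set q : ℝ := max (2 * (al - 2) / (al + 2)) 0 with hq
  have hq0 : 0 ≤ q := le_max_right _ _
  set K2 : ℝ := Cd * (2 : ℝ) ^ (4 * m / (al + 2)) with hK2
  have hK2p : 0 < K2 := by positivity
  obtain ⟨Cn2, hCn2, hnu2⟩ := hnu2S al m (K2 * (C0 + 1) ^ q) hprm (by positivity)
  obtain ⟨c1, hc1, hc1'⟩ := exists_c1 al (Cp * Ca * Cn1) (Cp * Ca * Cn2) (1 / (6 * 65536)) hal
    (by positivity) (by positivity) (by norm_num)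
  obtain ⟨hS0, hScontr, -, hScont, hSanti⟩ := hspr X μ κ a al b om W Z S ha hal hgrp hlim
  have hMn : 0 < Map al m / nup al m := div_pos (Map_pos al m) (nup_pos hprm)
  set C1 : ℝ := CW * (Cb * (2 : ℝ) ^ (2 * m / (al + 2))) + 8 * Real.sqrt (Map al m / nup al m)
    with hC1
  have hsq : 0 < Real.sqrt (Map al m / nup al m) := Real.sqrt_pos.2 hMn
  refine ⟨C1, c1, by positivity, hc1, ?_⟩
  intro c hc hcc V
  obtain ⟨⟨MV, hMV⟩, j1, hj1'⟩ := hub V
  have ham0 : ∀ j, 0 ≤ am al m S V j := fun j => by unfold am; positivity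
  have hMV0 : 0 ≤ MV := (ham0 0).trans (hMV 0)
  obtain ⟨k1, hk1, hnu⟩ := hnu2 (K2 * (MV + 1) ^ q) j1 (by positivity)
  refine ⟨k1, ?_⟩
  intro N δ hδ
  set T := tm m N with hT
  have hT0 : 0 ≤ T := tm_nonneg m N
  set G0 := Gr al m N with hG0'
  have hG0 : 0 < G0 := Gr_pos hprm N
  set ε1 : ℝ := 1 / (18 * 65536 * (Cp * Ca)) with hε1
  have hε1p : 0 < ε1 := by positivity
  set b3 : ℝ := ε1 / G0 with hb3
  have hb3p : 0 < b3 := by positivity
  set b4 : ℝ := ε1 / (G0 * (T ^ 2 + 1)) with hb4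
  have hb4p : 0 < b4 := by positivity
  obtain ⟨M, hM, hMle⟩ := exists_M al (Cd * ‖V‖ ^ 2) b3 hal (by positivity) hb3p
  set v : ℝ → Lp ℝ 2 μ := fun t => P2 (S (max t 0) V) with hvdef
  have hv : Continuous v := P2.continuous.comp (hScont V)
  -- choice of the set of modes
  have hev1 := hlku X μ κ a al b om R W Js hC M T b4 v hM hb4p hv
  have hev2 : ∀ᶠ n in atTop, (N : ℝ) * ((8 * c) ^ 2 * G0 * ‖V‖ ^ 2) / (δ ^ 4 / 12) + 1 ≤
      ((Js n).card : ℝ) := by
    have h1 : Tendsto (fun n => ((Js n).card : ℝ)) atTop atTop :=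
      tendsto_natCast_atTop_atTop.comp hC.j0
    exact h1.eventually_ge_atTop _
  obtain ⟨nJ, hnJ1, hnJ2⟩ := (hev1.and hev2).exists
  set J := Js nJ with hJ
  have hJR : (0 : ℝ) < J.card := by
    have : 0 ≤ (N : ℝ) * ((8 * c) ^ 2 * G0 * ‖V‖ ^ 2) / (δ ^ 4 / 12) := by positivity
    linarith
  have hJc : 0 < J.card := by exact_mod_cast hJR
  have hJne : J.Nonempty := Finset.card_pos.1 hJc
  have hJb := hj1 nJ
  rw [← hJ] at hJb
  obtain ⟨e, Φ, hLf, hlog⟩ := hgal X μ κ b om W J (CW * J.card) a al M v hgrp ha hal hM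
    (by positivity) hJne hJb hv
  have hfr : Module.finrank ℝ (EuclideanSpace ℝ (Fin (2 * J.card))) = 2 * J.card :=
    finrank_euclideanSpace_fin
  obtain ⟨bad, hbad, hcount, hgood⟩ := hgdf al m hprm (EuclideanSpace ℝ (Fin (2 * J.card)))
    (fun k => Φ (tm m k)) (by rw [hfr]; omega) (fun k => hLf.det_pos _)
    (fun c k => hLf.anti c _ _ (tm_mono m (Nat.le_succ k))) N
  refine ⟨bad, hbad, ?_, ?_⟩
  · -- the counting
    have hcfc : Continuous (cf a al M) := ((hcgl a al 1 ha hal zero_le_one).2.2.2.2.2.2.2.2.2.2.2.2.2.2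
      M hM).1
    have hcf0 : ∀ s, 0 ≤ cf a al M s := ((hcgl a al 1 ha hal zero_le_one).2.2.2.2.2.2.2.2.2.2.2.2.2.2
      M hM).2.1
    have hcfM : ∀ s, cf a al M s ≤ M := ((hcgl a al 1 ha hal zero_le_one).2.2.2.2.2.2.2.2.2.2.2.2.2.2
      M hM).2.2.1
    have hcont : Continuous fun r => ∫ x, cf a al M (v r x) ∂μ := by
      refine hctj X μ (fun p _ => cf a al M p) M (hcfc.comp continuous_fst) ?_ v v hv hv
      intro p _
      rw [abs_of_nonneg (hcf0 p)]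
      exact hcfM p
    have h1 := hlog (tm m 0) (tm m N) (tm_mono m (Nat.zero_le N))
    have h2 : ∫ r in (tm m 0)..(tm m N), ∫ x, cf a al M (v r x) ∂μ =
        ∑ j ∈ Finset.range N, ∫ r in (tm m j)..(tm m (j + 1)), ∫ x, cf a al M (v r x) ∂μ := by
      rw [intervalIntegral.sum_integral_adjacent_intervals]
      intro k _
      exact hcont.intervalIntegrable _ _
    have h3 : ∀ j ∈ Finset.range N, ∫ r in (tm m j)..(tm m (j + 1)), ∫ x, cf a al M (v r x) ∂μ ≤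
        Cb * (2 : ℝ) ^ (2 * m / (al + 2)) * (am al m S V j) ^ (2 * al / (al + 2)) := by
      intro j _
      have h4 := hbls X μ κ b om W Z S le_rfl hgrp hlim V M (tm m j) (tm m (j + 1)) hM
        (tm_nonneg m j) (tm_mono m (Nat.le_succ j))
      exact h4.trans (blk3 hal m j Cb _ hCb.le (norm_nonneg _))
    have h5 := Finset.sum_le_sum h3
    rw [← h2, ← Finset.mul_sum] at h5
    have h6 : 0 ≤ ∑ j ∈ Finset.range N, (am al m S V j) ^ (2 * al / (al + 2)) :=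
      Finset.sum_nonneg fun j _ => Real.rpow_nonneg (ham0 j) _
    have h7 : 2 / ((Module.finrank ℝ (EuclideanSpace ℝ (Fin (2 * J.card))) : ℕ) : ℝ) *
        (Real.log (LinearMap.det (Φ (tm m 0) :
          EuclideanSpace ℝ (Fin (2 * J.card)) →ₗ[ℝ] EuclideanSpace ℝ (Fin (2 * J.card)))) -
          Real.log (LinearMap.det (Φ (tm m N) :
            EuclideanSpace ℝ (Fin (2 * J.card)) →ₗ[ℝ] EuclideanSpace ℝ (Fin (2 * J.card))))) ≤
        CW * (Cb * (2 : ℝ) ^ (2 * m / (al + 2)) *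
          ∑ j ∈ Finset.range N, (am al m S V j) ^ (2 * al / (al + 2))) := by
      rw [hfr]
      push_cast
      have h8 : (0 : ℝ) < 2 / (2 * (J.card : ℝ)) := by positivity
      calc _ ≤ 2 / (2 * (J.card : ℝ)) * (CW * J.card *
            ∫ r in (tm m 0)..(tm m N), ∫ x, cf a al M (v r x) ∂μ) :=
            mul_le_mul_of_nonneg_left h1 h8.le
        _ = CW * ∫ r in (tm m 0)..(tm m N), ∫ x, cf a al M (v r x) ∂μ := by
            field_simp
        _ ≤ _ := mul_le_mul_of_nonneg_left h5 hCW.le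
    have h9 : CW * (Cb * (2 : ℝ) ^ (2 * m / (al + 2)) *
          ∑ j ∈ Finset.range N, (am al m S V j) ^ (2 * al / (al + 2))) ≤
        C1 * ∑ j ∈ Finset.range N, (am al m S V j) ^ (2 * al / (al + 2)) := by
      rw [← mul_assoc]
      apply mul_le_mul_of_nonneg_right _ h6
      rw [hC1]
      have : 0 ≤ 8 * Real.sqrt (Map al m / nup al m) := by positivity
      linarith
    linarith [hcount]
  · -- the backups
    intro k hkN hk1k hkbad
    have hk : 1 ≤ k := hk1.trans hk1k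
    obtain ⟨r, g, hr2, hg1, hg2⟩ := hgood k hkN hkbad
    rw [hfr] at hr2
    have hJr : J.card ≤ r := by omega
    set L : ℝ := 8 * c * (2 : ℝ) ^ (-((m * k : ℝ) / al)) with hLdef
    have hL : 0 < L := by positivity
    have hL8 : L ≤ 8 * c := by
      have h1 : (2 : ℝ) ^ (-((m * k : ℝ) / al)) ≤ 1 := by
        apply Real.rpow_le_one_of_one_le_of_nonpos (by norm_num)
        have : 0 ≤ (m * k : ℝ) / al := by positivity
        linarith
      calc L ≤ 8 * c * 1 := mul_le_mul_of_nonneg_left h1 (by positivity)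
        _ = 8 * c := by ring
    set Y : ℕ → ℝ := fun j => K2 * (am al m S V j + 1) ^ q with hY
    have hY0 : ∀ j, 0 ≤ Y j := fun j => by
      have := ham0 j
      positivity
    have hYD : ∀ j, Y j ≤ K2 * (MV + 1) ^ q := fun j => by
      apply mul_le_mul_of_nonneg_left _ hK2p.le
      have h1 := ham0 j
      have h2 := hMV j
      exact Real.rpow_le_rpow (by positivity) (by linarith) hq0
    have hYC : ∀ j, j1 ≤ j → Y j ≤ K2 * (C0 + 1) ^ q := fun j hj => by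
      apply mul_le_mul_of_nonneg_left _ hK2p.le
      have h1 := ham0 j
      have h2 := hj1' j hj
      exact Real.rpow_le_rpow (by positivity) (by linarith) hq0
    set G : ℕ → ℝ := fun j => Gr al m (k - 1 - j) with hG
    have hGn : ∀ j, 0 ≤ G j := fun j => (Gr_pos hprm _).le
    have hGm : ∀ i j, i ≤ j → G j ≤ G i := fun i j hij => Gr_mono hprm (by omega)
    have hGG0 : G 0 ≤ G0 := Gr_mono hprm (by omega)
    have htk : tm m k ≤ T := tm_mono m hkN.le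
    have htk0 := tm_nonneg m k
    have hn1 := hnu1 c k hc hk
    have hn2 := hnu c k Y hc hk1k hY0 hYD hYC
    set S1 : ℝ := ∑ j ∈ Finset.range k, (2 : ℝ) ^ (m * (j + 1)) *
      (L ^ 2 * G j) ^ ((al + 2) / 2) with hS1
    set S2 : ℝ := ∑ j ∈ Finset.range k, (L ^ 2 * G j) ^ 2 *
      ((2 : ℝ) ^ (2 * (m * j : ℝ) / al) * Y j) with hS2
    have key : ∃ D : KK (Lp ℝ 2 μ), ‖D‖ ^ 2 ≤ G 0 * L ^ 2 ∧
        (∀ i < k, ‖S (tm m i) V‖ - L / 256 - δ ≤ ‖S (tm m i) (V + D)‖) ∧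
        L - L / 256 ≤ ‖S (tm m k) (V + D) - S (tm m k) V‖ := by
     refine bkp_k (δ := δ) (L := L) (Cp := Cp)
      (Ca := Ca * (S1 + S2 + L ^ 2 * G 0 * b3 + (tm m k) ^ 2 * (L ^ 2 * G 0) * (b4 + b4)))
      (b2 := fun j => (2 : ℝ) ^ (2 * (m * j : ℝ) / al) * Y j) (b3 := b3) (b4 := b4)
      hgrq hex3 hgrp hlim hk hJne V v
      (fun i => by
        have h1 := hSanti V (mem_Ici.2 le_rfl) (mem_Ici.2 (tm_nonneg m i)) (tm_nonneg m i)
        simp only [hS0] at h1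
        exact h1)
      e Φ hLf g hJr hg1 G hGn hGm hg2 hL hCp
      (fun l Z0 Z1 c' hl hZ0 hZ1 => hper X μ κ b om W J (CW * J.card) M l v _ e Φ V Z0 Z1 c'
        (tm m k) hgrp hM hl (tm_pos hm hk) hJb hv hLf hZ0 hZ1)
      (fun l Z0 hl hZ0 h2 h3 h4 => havd X μ κ b om W J a M l v _ e Φ V Z0 m k r g G _ L b3 b4 b4
        le_rfl hgrp ha hM hl hJne hJr hJb hv hLf hZ0 hm hk hL hGn hGm hg2
        (fun j => mul_nonneg (by positivity) (hY0 j)) h2 h3 h4
        (fun t ht => hnJ1 t ⟨ht.1, ht.2.trans htk⟩))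
      ?_ ?_ ?_ ?_ hδ ?_
     · -- the numbers
       have hc2 := hc1' c hc hcc
       have hL2 : 0 ≤ L ^ 2 := by positivity
       have e3 : L ^ 2 * G 0 * b3 ≤ L ^ 2 * ε1 := by
         have h1 : G 0 * b3 ≤ ε1 := by
           calc G 0 * b3 ≤ G0 * b3 := mul_le_mul_of_nonneg_right hGG0 hb3p.le
             _ = ε1 := by rw [hb3]; field_simp
         calc L ^ 2 * G 0 * b3 = L ^ 2 * (G 0 * b3) := by ring
           _ ≤ _ := mul_le_mul_of_nonneg_left h1 hL2
       have e4 : (tm m k) ^ 2 * (L ^ 2 * G 0) * (b4 + b4) ≤ L ^ 2 * (2 * ε1) := by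
         have h1 : (tm m k) ^ 2 ≤ T ^ 2 + 1 := by nlinarith
         have h2 : (tm m k) ^ 2 * G 0 * b4 ≤ ε1 := by
           calc (tm m k) ^ 2 * G 0 * b4 ≤ (T ^ 2 + 1) * G0 * b4 := by
                 apply mul_le_mul_of_nonneg_right _ hb4p.le
                 exact mul_le_mul h1 hGG0 (hGn 0) (by positivity)
             _ = ε1 := by rw [hb4]; field_simp
         calc (tm m k) ^ 2 * (L ^ 2 * G 0) * (b4 + b4) =
             L ^ 2 * (2 * ((tm m k) ^ 2 * G 0 * b4)) := by ring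
           _ ≤ _ := by
             apply mul_le_mul_of_nonneg_left _ hL2
             linarith
       calc Cp * (Ca * (S1 + S2 + L ^ 2 * G 0 * b3 + (tm m k) ^ 2 * (L ^ 2 * G 0) * (b4 + b4)))
           ≤ Cp * (Ca * (Cn1 * c ^ al * L ^ 2 + Cn2 * c ^ 2 * L ^ 2 + L ^ 2 * ε1 +
               L ^ 2 * (2 * ε1))) := by
             apply mul_le_mul_of_nonneg_left _ hCp.le
             apply mul_le_mul_of_nonneg_left _ hCa.le
             have h1 : S1 ≤ Cn1 * c ^ al * L ^ 2 := hn1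
             have h2 : S2 ≤ Cn2 * c ^ 2 * L ^ 2 := hn2
             linarith
         _ = (Cp * Ca * Cn1 * c ^ al + Cp * Ca * Cn2 * c ^ 2) * L ^ 2 +
               3 * (Cp * Ca * ε1) * L ^ 2 := by ring
         _ ≤ 1 / (6 * 65536) * L ^ 2 + 3 * (Cp * Ca * ε1) * L ^ 2 := by
             have := mul_le_mul_of_nonneg_right hc2 hL2
             linarith
         _ = L ^ 2 / (3 * 65536) := by
             have : Cp * Ca * ε1 = 1 / (18 * 65536) := by
               rw [hε1]; field_simp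
             rw [this]
             ring
     · -- block bounds at level n
       intro h2al
       have hq' : q = 2 * (al - 2) / (al + 2) := by
         rw [hq]
         apply max_eq_left
         apply div_nonneg <;> linarith
       have h1 : ∀ j ∈ Finset.range k, ∀ᶠ n : ℕ in atTop,
           ‖Z n V (tm m j)‖ ≤ (2 : ℝ) ^ (-((m * j : ℝ) / al)) * (am al m S V j + 1) := by
         intro j _
         have ht : tm m j ∈ Icc (0 : ℝ) (tm m j) := ⟨tm_nonneg m j, le_rfl⟩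
         have h2 : Tendsto (fun n : ℕ => ‖Z n V (tm m j)‖) atTop (𝓝 ‖S (tm m j) V‖) := by
           have h3 := ((hlim.lim V (tm m j)).tendsto_at ht).norm
           simpa only [hWn] using h3
         have h3 : ‖S (tm m j) V‖ < (2 : ℝ) ^ (-((m * j : ℝ) / al)) * (am al m S V j + 1) := by
           unfold am
           rw [mul_add, ← mul_assoc, ← Real.rpow_add (by norm_num), neg_add_cancel,
             Real.rpow_zero, one_mul, mul_one]
           have : 0 < (2 : ℝ) ^ (-((m * j : ℝ) / al)) := by positivity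
           linarith
         exact (h2.eventually_lt_const h3).mono fun n hn => hn.le
       have h2 := (Finset.eventually_all (Finset.range k)).2 h1
       filter_upwards [h2, eventually_ge_atTop 1] with n hn hn1 j hj
       have hl : (0 : ℝ) < n := by exact_mod_cast hn1
       have h3 := (hdsp X μ κ b om W n V (Z n V) le_rfl hgrp hl (hlim.fl n V) (tm m j)
         (tm m (j + 1)) (tm_mono m (Nat.le_succ j))).2.1 h2al
       refine h3.trans ?_
       have h4 := blk2 hal h2al m j Cd ‖Z n V (tm m j)‖ (am al m S V j + 1) hCd.le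
         (norm_nonneg _) (hn j (Finset.mem_range.2 hj)) (by have := ham0 j; linarith)
       refine h4.trans (le_of_eq ?_)
       rw [hY, hK2, hq']
     · filter_upwards [eventually_ge_atTop 1] with n hn1
       have hl : (0 : ℝ) < n := by exact_mod_cast hn1
       have h3 := (hdsp X μ κ b om W n V (Z n V) le_rfl hgrp hl (hlim.fl n V) 0
         (tm m k) htk0).2.2.1 M hM
       rw [(hlim.fl n V).z0] at h3
       refine h3.trans ?_
       calc Cd * M ^ (-(2 / al)) * ‖V‖ ^ 2 = Cd * ‖V‖ ^ 2 * M ^ (-(2 / al)) := by ring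
         _ ≤ _ := hMle
     · have h3 := hcfl X μ κ a al b om W Z S ha hal hgrp hlim V M (tm m k) b4 hM hb4p
       filter_upwards [h3] with n hn t ht
       have h4 := hn t ht
       have h5 : v t = P2 (S t V) := by
         rw [hvdef]
         simp only [max_eq_left ht.1]
       rw [h5]
       exact h4
     · have h1 : (k : ℝ) ≤ N := by exact_mod_cast hkN.le
       have h2 : L ^ 2 ≤ (8 * c) ^ 2 := by gcongr
       have h3 : (k : ℝ) * (L ^ 2 * G 0 * ‖V‖ ^ 2) ≤ (N : ℝ) * ((8 * c) ^ 2 * G0 * ‖V‖ ^ 2) := by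
         have h0 := hGn 0
         gcongr
       have h4 : (N : ℝ) * ((8 * c) ^ 2 * G0 * ‖V‖ ^ 2) ≤ δ ^ 4 / 12 * J.card := by
         have h5 : (N : ℝ) * ((8 * c) ^ 2 * G0 * ‖V‖ ^ 2) / (δ ^ 4 / 12) ≤ J.card := by linarith
         rw [div_le_iff₀ (by positivity)] at h5
         linarith
       rw [div_le_iff₀ hJR]
       linarith

    obtain ⟨D, hD1, hD2, hD3⟩ := key
    refine ⟨D, ?_, ?_, ?_⟩
    · have h1 := hD1.trans (size_D hprm hk hc)
      have h2 := (abs_le_of_sq_le_sq' h1 (by positivity)).2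
      refine h2.trans ?_
      apply mul_le_mul_of_nonneg_right _ (by positivity)
      apply mul_le_mul_of_nonneg_right _ hc.le
      rw [hC1]
      have : 0 ≤ CW * (Cb * (2 : ℝ) ^ (2 * m / (al + 2))) := by positivity
      linarith
    · have h1 : ‖S (tm m k) (V + D) - S (tm m k) V‖ ≤ ‖S (tm m k) (V + D)‖ + ‖S (tm m k) V‖ :=
        norm_sub_le _ _
      have h2 : 6 * c * (2 : ℝ) ^ (-((m * k : ℝ) / al)) ≤ L - L / 256 := by
        rw [hLdef]
        have : 0 < c * (2 : ℝ) ^ (-((m * k : ℝ) / al)) := by positivity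
        nlinarith
      linarith
    · intro i hi
      have h1 := hD2 i hi
      have h2 : L / 256 = 1 / 32 * c * (2 : ℝ) ^ (-((m * k : ℝ) / al)) := by
        rw [hLdef]; ring
      rw [← h2]
      exact h1

end main

end

end Pool.Agent.BEL.H53
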