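import Pool.Agent.BEL.StmtsE

/-!
# BEL, row COO: the equations of the coordinates
-/

namespace Pool.Agent.BEL.H53

open Filter Topology Set
open scoped InnerProductSpace

theorem coo : CooStmt := by
  intro H _ _ _ κ b om W F V Z j t hW hZ
  have hd := hZ.eq t
  set f : H := F (P2 (W t (Z t))) with hf
  have e1 : P1 (inj f) = 0 := rfl
  have e2 : P2 (inj f) = f := rfl
  have d1 : HasDerivAt (fun t => ⟪b j, P1 (Z t)⟫_ℝ) (Real.sin (om j * t) * ⟪b j, f⟫_ℝ) t := by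
    have h1 := ((innerSL ℝ (b j)).hasFDerivAt.comp_hasDerivAt t
      ((P1 (H := H)).hasFDerivAt.comp_hasDerivAt t hd))
    refine h1.congr_deriv ?_
    rw [map_neg, map_neg, innerSL_apply_apply, hW.c1, e1, e2, mul_neg, Real.sin_neg, inner_zero_right]
    ring
  have d2 : HasDerivAt (fun t => ⟪b j, P2 (Z t)⟫_ℝ) (-(Real.cos (om j * t) * ⟪b j, f⟫_ℝ)) t := by
    have h1 := ((innerSL ℝ (b j)).hasFDerivAt.comp_hasDerivAt t
      ((P2 (H := H)).hasFDerivAt.comp_hasDerivAt t hd))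
    refine h1.congr_deriv ?_
    rw [map_neg, map_neg, innerSL_apply_apply, hW.c2, e1, e2, mul_neg, Real.cos_neg, inner_zero_right]
    ring
  have hl : HasDerivAt (fun t : ℝ => om j * t) (om j) t := by
    simpa using (hasDerivAt_id t).const_mul (om j)
  have hc : HasDerivAt (fun t : ℝ => Real.cos (om j * t)) (-Real.sin (om j * t) * om j) t := hl.cos
  have hs : HasDerivAt (fun t : ℝ => Real.sin (om j * t)) (Real.cos (om j * t) * om j) t := hl.sin
  have q1 : (fun t => ⟪b j, P1 (W t (Z t))⟫_ℝ) = fun t =>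
      Real.cos (om j * t) * ⟪b j, P1 (Z t)⟫_ℝ + Real.sin (om j * t) * ⟪b j, P2 (Z t)⟫_ℝ :=
    funext fun t => hW.c1 t (Z t) j
  have q2 : (fun t => ⟪b j, P2 (W t (Z t))⟫_ℝ) = fun t =>
      -Real.sin (om j * t) * ⟪b j, P1 (Z t)⟫_ℝ + Real.cos (om j * t) * ⟪b j, P2 (Z t)⟫_ℝ :=
    funext fun t => hW.c2 t (Z t) j
  have hsc := Real.sin_sq_add_cos_sq (om j * t)
  refine ⟨?_, ?_⟩
  · rw [q1]
    refine ((hc.mul d1).add (hs.mul d2)).congr_deriv ?_
    rw [hW.c2]
    ring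
  · rw [q2]
    have hs' : HasDerivAt (fun t : ℝ => -Real.sin (om j * t)) (-(Real.cos (om j * t) * om j)) t :=
      hs.neg
    refine ((hs'.mul d1).add (hc.mul d2)).congr_deriv ?_
    rw [hW.c1]
    linear_combination (-⟪b j, f⟫_ℝ) * hsc

end Pool.Agent.BEL.H53
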