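import Pool.Agent.Helper53_BEL.Tm
import Pool.Agent.BEL.StmtsD
import Pool.Agent.BEL.StmtsU
import Pool.Agent.BEL.Defs2

/-!
# BEL, row CRF: the result of the core
-/

namespace Pool.Agent.BEL.H53

open MeasureTheory Filter Topology Set
open scoped InnerProductSpace ENNReal

noncomputable section

theorem one_add_tm (m k : ℕ) : 1 + tm m k = (2 : ℝ) ^ (m * k) := by
  unfold tm; ring

theorem tm_tendsto {m : ℕ} (hm : 1 ≤ m) : Tendsto (fun j => tm m j) atTop atTop := by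
  unfold tm
  apply tendsto_atTop_add_const_right
  have h1 : Tendsto (fun j : ℕ => ((2 : ℝ) ^ m) ^ j) atTop atTop :=
    tendsto_pow_atTop_atTop_of_one_lt (one_lt_pow₀ (by norm_num) (by omega))
  refine h1.congr fun j => ?_
  rw [pow_mul]

theorem am_sq {K : Type} [NormedAddCommGroup K] (al : ℝ) (m : ℕ) (S : ℝ → K → K)
    (V : K) (k : ℕ) : (am al m S V k) ^ 2 = (2 : ℝ) ^ ((m * k : ℝ) * (2 / al)) * ‖S (tm m k) V‖ ^ 2 := by
  unfold am
  rw [mul_pow, ← Real.rpow_natCast, ← Real.rpow_mul (by norm_num)]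
  congr 2
  push_cast
  ring

theorem pow_cancel (al : ℝ) (m k : ℕ) :
    (2 : ℝ) ^ ((m * k : ℝ) * (2 / al)) * ((2 : ℝ) ^ (m * k)) ^ (-(2 / al)) = 1 := by
  rw [← Real.rpow_natCast, ← Real.rpow_mul (by norm_num), ← Real.rpow_add (by norm_num)]
  push_cast
  have : (m * k : ℝ) * (2 / al) + m * k * -(2 / al) = 0 := by ring
  rw [this, Real.rpow_zero]

theorem crf (hCor : CorStmt) (hLim : LimStmt) (hSol : SolStmt) (hUbd : UbdStmt)
    (hPrx : PrxStmt) (hBkp : BkpStmt) (hCnt : CntStmt) (hLgd : LgdStmt) (hGd2 : Gd2Stmt)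
    (hSpr : SprStmt) : Core2Stmt := by
  intro X _ μ a al b om ha hal hI
  haveI := hI.fin
  obtain ⟨R, W, Js, hC⟩ := hCor X μ a al b om ha hal hI
  obtain ⟨Z, S, hlim⟩ := hLim X μ a al ℕ b om R W Js hC
  have hgrp := hC.grp
  have hbd : ∀ k, ∃ B, ∀ᵐ x ∂μ, |b k x| ≤ B := by
    intro k
    obtain ⟨C, hC0, h1⟩ := hC.j1
    obtain ⟨n, hn⟩ := (hC.j2 k).exists
    refine ⟨Real.sqrt (C * (Js n).card), ?_⟩
    filter_upwards [h1 n] with x hx
    apply Real.abs_le_sqrt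
    refine le_trans ?_ hx
    exact Finset.single_le_sum (f := fun j => (b j x) ^ 2) (fun j _ => sq_nonneg _) hn
  have hsol := hSol X μ a al b om W Z S ha hal hgrp hbd hlim
  obtain ⟨C, hC0, hub⟩ := hUbd X μ a al b om ha hal hI
  have henr : ∀ V t, enr μ (fun t => P1 (S t V)) (fun t => P2 (S t V)) t = ‖S t V‖ ^ 2 := by
    intro V t
    unfold enr
    exact (WithLp.prod_norm_sq_eq_of_L2 (S t V)).symm
  obtain ⟨m, hm⟩ := hPrx al hal
  have hm1 := Pool.Agent.BEL.H53.Prm.mpos hm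
  have ham0 : ∀ V j, 0 ≤ am al m S V j := fun V j => by unfold am; positivity
  have hub2 : ∀ V, (∃ M : ℝ, ∀ j, am al m S V j ≤ M) ∧
      ∃ j1 : ℕ, ∀ j ≥ j1, am al m S V j ≤ Real.sqrt (C * (2 : ℝ) ^ (2 / al)) := by
    intro V
    obtain ⟨⟨M, hM⟩, hev⟩ := hub _ _ (hsol V)
    constructor
    · refine ⟨Real.sqrt M, fun j => ?_⟩
      apply Real.le_sqrt_of_sq_le
      have h1 := hM (tm m j) (tm_nonneg m j)
      rw [henr, one_add_tm] at h1
      rw [am_sq]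
      calc (2 : ℝ) ^ ((m * j : ℝ) * (2 / al)) * ‖S (tm m j) V‖ ^ 2
          ≤ (2 : ℝ) ^ ((m * j : ℝ) * (2 / al)) * (M * ((2 : ℝ) ^ (m * j)) ^ (-(2 / al))) :=
            mul_le_mul_of_nonneg_left h1 (by positivity)
        _ = M * ((2 : ℝ) ^ ((m * j : ℝ) * (2 / al)) * ((2 : ℝ) ^ (m * j)) ^ (-(2 / al))) := by
            ring
        _ = M := by rw [pow_cancel, mul_one]
    · have h1 := (tm_tendsto hm1).eventually (hev.and (eventually_ge_atTop (1 : ℝ)))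
      obtain ⟨j1, hj1⟩ := eventually_atTop.1 h1
      refine ⟨j1, fun j hj => ?_⟩
      obtain ⟨h2, h3⟩ := hj1 j hj
      apply Real.le_sqrt_of_sq_le
      rw [henr] at h2
      rw [am_sq]
      have h4 : (tm m j) ^ (-(2 / al)) ≤ (2 : ℝ) ^ (2 / al) * ((2 : ℝ) ^ (m * j)) ^ (-(2 / al)) := by
        have h5 : (2 : ℝ) ^ (m * j) / 2 ≤ tm m j := by
          have := one_add_tm m j
          linarith
        calc (tm m j) ^ (-(2 / al)) ≤ ((2 : ℝ) ^ (m * j) / 2) ^ (-(2 / al)) := by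
              apply Real.rpow_le_rpow_of_nonpos (by positivity) h5
              have : 0 < 2 / al := by positivity
              linarith
          _ = _ := by
              rw [Real.div_rpow (by positivity) (by norm_num), Real.rpow_neg (x := 2) (by norm_num),
                div_inv_eq_mul]
              ring
      calc (2 : ℝ) ^ ((m * j : ℝ) * (2 / al)) * ‖S (tm m j) V‖ ^ 2
          ≤ (2 : ℝ) ^ ((m * j : ℝ) * (2 / al)) *
              (C * ((2 : ℝ) ^ (2 / al) * ((2 : ℝ) ^ (m * j)) ^ (-(2 / al)))) := by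
            apply mul_le_mul_of_nonneg_left _ (by positivity)
            exact h2.trans (mul_le_mul_of_nonneg_left h4 hC0.le)
        _ = C * (2 : ℝ) ^ (2 / al) *
              ((2 : ℝ) ^ ((m * j : ℝ) * (2 / al)) * ((2 : ℝ) ^ (m * j)) ^ (-(2 / al))) := by
            ring
        _ = _ := by rw [pow_cancel, mul_one]
  have hC0' : 0 < Real.sqrt (C * (2 : ℝ) ^ (2 / al)) := Real.sqrt_pos.2 (by positivity)
  obtain ⟨C1, c1, hC1, hc1, hB⟩ := hBkp X μ ℕ a al b om R W Js hC Z S hlim m _ hm hC0' hub2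
  obtain ⟨hS0, hcontr, hcont, -, hanti⟩ := hSpr X μ ℕ a al b om W Z S ha hal hgrp hlim
  obtain ⟨c0, g0, hc0, hg0, hcnt⟩ := hCnt (KK (Lp ℝ 2 μ)) al m S C1 c1 _ hm hC1 hc1 hC0'
    (fun t V V' ht => hcontr t ht V V') hB (fun V => (hub2 V).2)
  obtain ⟨c', g', hc', hg', hlgd⟩ := hLgd al m c0 g0 hm hc0 hg0
  have hkey : ∀ (V0 : KK (Lp ℝ 2 μ)) (ρ : ℝ), 0 < ρ → ∃ V, ‖V - V0‖ < ρ ∧
      ∀ c'' : ℝ, 0 < c'' → c'' ≤ c' → LowLog {t | c'' * t ^ (-(2 / al)) ≤ ‖S t V‖ ^ 2} g' := by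
    intro V0 ρ hρ
    obtain ⟨V, hV, B, hN⟩ := hcnt V0 ρ hρ
    exact ⟨V, hV, hlgd B (fun t => ‖S t V‖) (fun t => norm_nonneg _) (hanti V) hN⟩
  refine ⟨c' / 2, C, g', by positivity, hC0, hg', ?_, ?_⟩
  · intro x y ε hε
    obtain ⟨V, hV, hL⟩ := hkey (WithLp.toLp 2 (x, y)) ε hε
    refine ⟨fun t => P1 (S t V), fun t => P2 (S t V), hsol V, ?_, ?_, (hub _ _ (hsol V)).1,
      (hub _ _ (hsol V)).2, ?_⟩
    · have h1 : P1 (S 0 V) - x = P1 (V - WithLp.toLp 2 (x, y)) := by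
        rw [hS0, map_sub]
        rfl
      show ‖P1 (S 0 V) - x‖ < ε
      rw [h1]
      refine lt_of_le_of_lt ?_ hV
      have h2 := WithLp.prod_norm_sq_eq_of_L2 (V - WithLp.toLp 2 (x, y))
      have h3 : ‖P1 (V - WithLp.toLp 2 (x, y))‖ ^ 2 ≤ ‖V - WithLp.toLp 2 (x, y)‖ ^ 2 := by
        rw [h2]
        have : P1 (V - WithLp.toLp 2 (x, y)) = (V - WithLp.toLp 2 (x, y)).fst := rfl
        rw [this]
        nlinarith [sq_nonneg ‖(V - WithLp.toLp 2 (x, y)).snd‖]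
      exact (abs_le_of_sq_le_sq' h3 (norm_nonneg _)).2
    · have h1 : P2 (S 0 V) - y = P2 (V - WithLp.toLp 2 (x, y)) := by
        rw [hS0, map_sub]
        rfl
      show ‖P2 (S 0 V) - y‖ < ε
      rw [h1]
      refine lt_of_le_of_lt ?_ hV
      have h2 := WithLp.prod_norm_sq_eq_of_L2 (V - WithLp.toLp 2 (x, y))
      have h3 : ‖P2 (V - WithLp.toLp 2 (x, y))‖ ^ 2 ≤ ‖V - WithLp.toLp 2 (x, y)‖ ^ 2 := by
        rw [h2]
        have : P2 (V - WithLp.toLp 2 (x, y)) = (V - WithLp.toLp 2 (x, y)).snd := rfl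
        rw [this]
        nlinarith [sq_nonneg ‖(V - WithLp.toLp 2 (x, y)).fst‖]
      exact (abs_le_of_sq_le_sq' h3 (norm_nonneg _)).2
    · have h1 : {t | c' / 2 * t ^ (-(2 / al)) ≤
          enr μ (fun t => P1 (S t V)) (fun t => P2 (S t V)) t} =
          {t | c' / 2 * t ^ (-(2 / al)) ≤ ‖S t V‖ ^ 2} := by
        ext t
        simp only [mem_ofPred_eq, henr]
      rw [h1]
      exact hL (c' / 2) (by positivity) (by linarith)
  · obtain ⟨D, hD1, hD2, hD3⟩ := hGd2 (KK (Lp ℝ 2 μ)) al c' g' S hal hc'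
      (fun t V V' ht => hcontr t ht V V') hcont (fun V0 ρ hρ => by
        obtain ⟨V, hV, hL⟩ := hkey V0 ρ hρ
        exact ⟨V, hV, hL c' hc' le_rfl⟩)
    set h := (WithLp.prodContinuousLinearEquiv 2 ℝ (Lp ℝ 2 μ) (Lp ℝ 2 μ)).symm with hh
    refine ⟨h ⁻¹' D, hD1.preimage h.continuous, hD2.preimage h.toHomeomorph.isOpenMap, ?_⟩
    intro P hP
    refine ⟨fun t => P1 (S t (h P)), fun t => P2 (S t (h P)), hsol _, ?_,
      (hub _ _ (hsol _)).2, ?_⟩
    · show (P1 (S 0 (h P)), P2 (S 0 (h P))) = P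
      rw [hS0]
      rfl
    · have h1 : {t | c' / 2 * t ^ (-(2 / al)) ≤
          enr μ (fun t => P1 (S t (h P))) (fun t => P2 (S t (h P))) t} =
          {t | c' / 2 * t ^ (-(2 / al)) ≤ ‖S t (h P)‖ ^ 2} := by
        ext t
        simp only [mem_ofPred_eq, henr]
      rw [h1]
      exact hD3 _ hP

end

end Pool.Agent.BEL.H53
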