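import Pool.Agent.BEL.StmtsQ

/-!
# BEL, row WPC
-/

namespace Pool.Agent.BEL.H53

open MeasureTheory Filter Topology Set
open scoped InnerProductSpace ENNReal

noncomputable section

theorem wpc (hCor : CorStmt) (hLim : LimStmt) (hSol : SolStmt) (hSpr : SprStmt) (hUnc : UncStmt)
    (hFlp : FlpStmt) (hGlp : GlpStmt) (hNem : NemStmt) (hGrq : GrqStmt) : WpcStmt := by
  intro X _ μ a al b om ha hal hI
  have := hI.fin
  obtain ⟨R, W, Js, hC⟩ := hCor X μ a al b om ha hal hI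
  obtain ⟨Z, S, hlim⟩ := hLim X μ a al ℕ b om R W Js hC
  have hgrp := hC.grp
  have hbd : ∀ k, ∃ B, ∀ᵐ x ∂μ, |b k x| ≤ B := by
    intro k
    obtain ⟨C, hC0, h1⟩ := hC.j1
    obtain ⟨n, hn⟩ := (hC.j2 k).exists
    refine ⟨Real.sqrt (C * (Js n).card), ?_⟩
    filter_upwards [h1 n] with x hx
    apply Real.abs_le_sqrt
    refine le_trans ?_ hx
    exact Finset.single_le_sum (f := fun j => (b j x) ^ 2) (fun j _ => sq_nonneg _) hn
  have hsol := hSol X μ a al b om W Z S ha hal hgrp hbd hlim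
  obtain ⟨hS0, -, -, -, -⟩ := hSpr X μ ℕ a al b om W Z S ha hal hgrp hlim
  obtain ⟨-, -, hWn, -⟩ := hGrq (Lp ℝ 2 μ) ℕ b om W hgrp
  obtain ⟨-, hgL, hgM, hg0, -⟩ := hGlp a al ha hal
  have hcon : ∀ V V' s t, 0 ≤ s → s ≤ t → ‖S t V - S t V'‖ ≤ ‖S s V - S s V'‖ := by
    intro V V' s t hs hst
    have hn : ∀ n : ℕ, ‖W t (Z n V t) - W t (Z n V' t)‖ ≤ ‖W s (Z n V s) - W s (Z n V' s)‖ := by
      intro n
      have hn0 : (0 : ℝ) ≤ n := Nat.cast_nonneg n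
      obtain ⟨-, h2, h3, -, -, h6⟩ := hNem X μ (gl a al n) _ (hgL n hn0) (hg0 n)
      have h7 := (hFlp (Lp ℝ 2 μ) ℕ b om W (nem μ (gl a al n)) _ hgrp h2 (h6 (hgM n hn0)) h3
        V V' (Z n V) (Z n V') (hlim.fl n V) (hlim.fl n V')).2.2.2.1 s t hst
      rw [← map_sub, ← map_sub, hWn, hWn]
      exact h7
    have ht : t ∈ Icc (0 : ℝ) t := ⟨hs.trans hst, le_rfl⟩
    have hs' : s ∈ Icc (0 : ℝ) t := ⟨hs, hst⟩
    have h1 := (((hlim.lim V t).tendsto_at ht).sub ((hlim.lim V' t).tendsto_at ht)).norm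
    have h2 := (((hlim.lim V t).tendsto_at hs').sub ((hlim.lim V' t).tendsto_at hs')).norm
    exact le_of_tendsto_of_tendsto' h1 h2 hn
  constructor
  · intro x y
    refine ⟨fun t => P1 (S t (WithLp.toLp 2 (x, y))), fun t => P2 (S t (WithLp.toLp 2 (x, y))),
      hsol _, ?_, ?_⟩
    · show P1 (S 0 (WithLp.toLp 2 (x, y))) = x
      rw [hS0]
      rfl
    · show P2 (S 0 (WithLp.toLp 2 (x, y))) = y
      rw [hS0]
      rfl
  · intro z1 z2 w1 w2 hz hw s t hs hst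
    have hu := hUnc X μ a al b om R W Js hC hI Z S hlim
    have e1 : ∀ r, 0 ≤ r → ‖z1 r - w1 r‖ ^ 2 + ‖z2 r - w2 r‖ ^ 2 =
        ‖S r (WithLp.toLp 2 (z1 0, z2 0)) - S r (WithLp.toLp 2 (w1 0, w2 0))‖ ^ 2 := by
      intro r hr
      rw [← hu z1 z2 hz r hr, ← hu w1 w2 hw r hr, WithLp.prod_norm_sq_eq_of_L2]
      rfl
    rw [e1 t (hs.trans hst), e1 s hs]
    have h1 := hcon (WithLp.toLp 2 (z1 0, z2 0)) (WithLp.toLp 2 (w1 0, w2 0)) s t hs hst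
    exact pow_le_pow_left₀ (norm_nonneg _) h1 2

end

end Pool.Agent.BEL.H53
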