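import Pool.Agent.Helper53_BEL.UME
import Pool.Agent.Helper53_BEL.COO
import Pool.Agent.Helper53_BEL.BKP
import Pool.Agent.Helper53_BEL.CRF
import Pool.Agent.Helper53_BEL.WPC
import Pool.Agent.Helper33_BEL.GRP
import Pool.Agent.Helper39_BEL.RIN
import Pool.Agent.Helper39_BEL.GRQ
import Pool.Agent.Helper39_BEL.CTJ
import Pool.Agent.Helper39_BEL.PRX
import Pool.Agent.Helper56_BEL.ENG
import Pool.Agent.Helper56_BEL.GDF
import Pool.Agent.Helper68_BEL.FLE
import Pool.Agent.Helper68_BEL.CAM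
import Pool.Agent.Helper81_BEL.FLP
import Pool.Agent.Helper30_BEL.REG
import Pool.Agent.Helper30_BEL.CVG
import Pool.Agent.Helper30_BEL.DSP
import Pool.Agent.Helper29_BEL.GLP
import Pool.Agent.Helper29_BEL.GCV
import Pool.Agent.Helper29_BEL.PER
import Pool.Agent.Helper29_BEL.SPR
import Pool.Agent.Helper41_BEL.ENI
import Pool.Agent.Helper41_BEL.FUN
import Pool.Agent.Helper41_BEL.EX1
import Pool.Agent.Helper41_BEL.EX4
import Pool.Agent.Helper59_BEL.SOL
import Pool.Agent.Helper6_BEL.UHO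
import Pool.Agent.Helper6_BEL.UPR
import Pool.Agent.Helper23_BEL.UGH
import Pool.Agent.Helper16_BEL.UMI
import Pool.Agent.Helper32_BEL.UWI
import Pool.Agent.Helper32_BEL.EX3
import Pool.Agent.Helper61_BEL.UDI
import Pool.Agent.Helper61_BEL.PWI
import Pool.Agent.Helper65_BEL.CTI
import Pool.Agent.Helper65_BEL.GD2
import Pool.Agent.Helper17_BEL.GPK
import Pool.Agent.Helper60_BEL.CGL
import Pool.Agent.Helper92_BEL.MLP
import Pool.Agent.Helper92_BEL.BLS
import Pool.Agent.Helper21_BEL.RAD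
import Pool.Agent.Helper64_BEL.RD2
import Pool.Agent.Helper79_BEL.PTB
import Pool.Agent.Helper62_BEL.EX2
import Pool.Agent.Helper7_BEL.GAL
import Pool.Agent.Helper48_BEL.DIF
import Pool.Agent.Helper49_BEL.LKU
import Pool.Agent.Helper49_BEL.NU
import Pool.Agent.Helper49_BEL.CNT
import Pool.Agent.Helper82_BEL.LGD
import Pool.Agent.Helper77_BEL.COR
import Pool.Agent.Helper47_BEL.NEM
import Pool.Agent.Helper47_BEL.LIM
import Pool.Agent.Helper16_BEL.CFL
import Pool.Agent.Helper92_BEL.WPI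
import Pool.Agent.Helper91_BEL.XID
import Pool.Agent.Helper79_BEL.UNC
import Pool.Agent.Helper95_BEL.PRS
import Pool.Agent.Helper65_BEL.WSU
import Pool.Agent.Helper61_BEL.COE
import Pool.Agent.Helper31_BEL.AVD

/-!
# BEL: the results of the core, without hypotheses
-/

namespace Pool.Agent.BEL.H53

noncomputable section

theorem engA : EngStmt := H56.eng H39.grq
theorem fleA : FleStmt := H68.fle H39.grq
theorem flpA : FlpStmt := H81.flp H39.grq engA
theorem nemA : NemStmt := H47.nem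
theorem cflA : CflStmt := H16.cfl H60.cgl
theorem prsA : PrsStmt := H95.prs H39.grq flpA
theorem camA : CamStmt := H68.cam nemA H29.glp
theorem nebA : NebStmt := H81.neb nemA H29.glp
theorem cvgA : CvgStmt := H30.cvg H39.grq fleA flpA

theorem ctiA : CtiStmt := H65.cti H60.cgl H92.mlp
theorem ex1A : Ex1Stmt := H41.ex1 H21.rad H79.ptb
theorem ex3A : Ex3Stmt := H32.ex3 H64.rd2
theorem ex4A : Ex4Stmt := H41.ex4 H64.rd2 H62.ex2 H92.mlp
theorem galA : GalStmt := H7.gal H17.gpk H39.grq H92.mlp H60.cgl H39.ctj H41.fun_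
theorem lkuA : LkuStmt := H49.lku H17.gpk H92.mlp H60.cgl H39.ctj
theorem corA : CorStmt := H77.cor H33.grp H39.rin
theorem difA : DifStmt := H48.dif H60.cgl H61.pwi H92.mlp H29.glp nemA
theorem perA : PerStmt := H29.per H17.gpk H39.grq ctiA difA
theorem dspA : DspStmt := H30.dsp flpA H29.glp nemA H60.cgl H39.ctj
theorem sprA : SprStmt := H29.spr prsA H29.glp nemA
theorem blsA : BlsStmt := H92.bls dspA cflA sprA H39.grq H60.cgl H39.ctj
theorem eniA : EniStmt := H41.eni H39.grq flpA prsA H29.glp nemA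
theorem gcvA : GcvStmt := H29.gcv flpA prsA nemA eniA
theorem avdA : AvdStmt := H31.avd H17.gpk H39.grq ex1A ex4A ctiA H39.ctj H60.cgl

theorem regA : RegStmt := H30.reg H39.grq flpA coo

theorem limA : LimStmt := H47.lim engA flpA regA cvgA H29.glp nemA nebA camA

theorem solA : SolStmt :=
  H59.sol H39.grq flpA coo prsA H29.glp nemA eniA gcvA

theorem ubdA : UbdStmt :=
  H61.ubd (H32.uwi uen (H6.uho uen) (H16.umi2 uen H6.upr H23.ugh)) H61.udi

theorem bkpA : BkpStmt :=
  bkp H39.grq H60.cgl H39.ctj ex3A perA avdA dspA cflA sprA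
    blsA lkuA H49.nu1 H49.nu2 galA H56.gdf

theorem core2 : Core2Stmt :=
  crf corA limA solA ubdA H39.prx bkpA H49.cnt H82.lgd
    H65.gd2 sprA

theorem xidA : XidStmt := H91.xid H39.grq coo H29.glp nemA H6.upr uen

theorem wsuA : WsuStmt :=
  H65.wsu (H92.wpi H29.glp) xidA H39.grq flpA regA H29.glp nemA nebA uen

theorem wpcA : WpcStmt :=
  wpc corA limA solA sprA (H79.unc wsuA sprA) flpA H29.glp nemA H39.grq

end

end Pool.Agent.BEL.H53
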