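import Pool.Agent.BEL.DefsH

/-!
# BEL: elementary facts on the times `tm` and the parameters
-/

namespace Pool.Agent.BEL.H53

open MeasureTheory Filter Topology Set
open scoped InnerProductSpace ENNReal

noncomputable section

theorem tm_zero (m : ℕ) : tm m 0 = 0 := by simp [tm]

theorem tm_nonneg (m k : ℕ) : 0 ≤ tm m k := by
  have : (1 : ℝ) ≤ (2 : ℝ) ^ (m * k) := one_le_pow₀ (by norm_num)
  unfold tm; linarith

theorem tm_mono (m : ℕ) {i j : ℕ} (h : i ≤ j) : tm m i ≤ tm m j := by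
  have : (2 : ℝ) ^ (m * i) ≤ (2 : ℝ) ^ (m * j) :=
    pow_le_pow_right₀ (by norm_num) (Nat.mul_le_mul_left m h)
  unfold tm; linarith

theorem tm_diff (m j : ℕ) : tm m (j + 1) - tm m j ≤ (2 : ℝ) ^ (m * (j + 1)) := by
  have : (0 : ℝ) < (2 : ℝ) ^ (m * j) := by positivity
  unfold tm; linarith

theorem tm_pos {m k : ℕ} (hm : 1 ≤ m) (hk : 1 ≤ k) : 0 < tm m k := by
  have : (1 : ℝ) < (2 : ℝ) ^ (m * k) := one_lt_pow₀ (by norm_num) (by positivity)
  unfold tm; linarith

theorem Prm.mpos {al : ℝ} {m : ℕ} (h : Prm al m) : 1 ≤ m := by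
  rcases Nat.eq_zero_or_pos m with h0 | h0
  · have := h.m1
    rw [h0] at this
    norm_num at this
  · exact h0

theorem lam_pos {al : ℝ} (h : 0 < al) : 0 < lam al := by unfold lam; positivity

theorem mup_pos (al : ℝ) (m : ℕ) : 0 < mup al m := by unfold mup; positivity

theorem mup_le {al : ℝ} {m : ℕ} (h : Prm al m) : mup al m ≤ 1 / 4 := by
  unfold mup
  have h1 : (2 : ℝ) ^ (-(lam al * m)) ≤ (2 : ℝ) ^ (-2 : ℝ) := by
    apply Real.rpow_le_rpow_of_exponent_le (by norm_num)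
    have := h.m1
    linarith
  have h2 : (2 : ℝ) ^ (-2 : ℝ) = 1 / 4 := by
    rw [Real.rpow_neg (by norm_num)]
    norm_num
  exact h1.trans h2.le

theorem lgm_pos {al : ℝ} {m : ℕ} (h : Prm al m) : 0 < lgm al m := by
  unfold lgm
  have h1 := mup_pos al m
  have h2 := mup_le h
  have h3 : 1 < 1 / mup al m := by
    rw [lt_div_iff₀ h1]; linarith
  have := Real.log_pos h3
  linarith

theorem nup_pos {al : ℝ} {m : ℕ} (h : Prm al m) : 0 < nup al m := by
  unfold nup
  have := lgm_pos h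
  exact lt_min (by norm_num) (by linarith)

theorem Map_pos (al : ℝ) (m : ℕ) : 0 < Map al m := by
  unfold Map
  have := Real.sqrt_pos.2 (mup_pos al m)
  positivity

theorem Gr_pos {al : ℝ} {m : ℕ} (h : Prm al m) (i : ℕ) : 0 < Gr al m i := by
  unfold Gr
  have h1 := Map_pos al m
  have h2 := nup_pos h
  have h3 := mup_pos al m
  positivity

theorem Gr_mono {al : ℝ} {m : ℕ} (h : Prm al m) {i j : ℕ} (hij : i ≤ j) :
    Gr al m i ≤ Gr al m j := by
  unfold Gr
  have h1 := Map_pos al m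
  have h2 := nup_pos h
  have h3 := mup_pos al m
  have h4 := mup_le h
  have h5 : (mup al m) ^ j ≤ (mup al m) ^ i :=
    pow_le_pow_of_le_one h3.le (by linarith) hij
  have h6 : ((mup al m) ^ i)⁻¹ ≤ ((mup al m) ^ j)⁻¹ :=
    inv_anti₀ (by positivity) h5
  exact mul_le_mul_of_nonneg_left h6 (by positivity)

/-- `mup ^ i = 2 ^ (- lam m i)`. -/
theorem mup_pow (al : ℝ) (m i : ℕ) : ((mup al m) ^ i)⁻¹ = (2 : ℝ) ^ (lam al * m * i) := by
  unfold mup
  rw [← Real.rpow_natCast, ← Real.rpow_mul (by norm_num), ← Real.rpow_neg (by norm_num)]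
  congr 1
  ring

/-- Block bound, exponent `al - 2`. -/
theorem blk2 {al : ℝ} (hal : 0 < al) (h2 : 2 < al) (m j : ℕ) (Cd z A : ℝ) (hCd : 0 ≤ Cd)
    (hz : 0 ≤ z) (hA : z ≤ (2 : ℝ) ^ (-((m * j : ℝ) / al)) * A) (hA0 : 0 ≤ A) :
    Cd * (tm m (j + 1) - tm m j) ^ (4 / (al + 2)) * (z ^ 2) ^ ((al - 2) / (al + 2)) ≤
      (2 : ℝ) ^ (2 * (m * j : ℝ) / al) *
        (Cd * (2 : ℝ) ^ (4 * m / (al + 2)) * A ^ (2 * (al - 2) / (al + 2))) := by
  have e1 : (tm m (j + 1) - tm m j) ^ (4 / (al + 2)) ≤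
      (2 : ℝ) ^ ((m * j : ℝ) * (4 / (al + 2))) * (2 : ℝ) ^ (4 * m / (al + 2)) := by
    have h1 : 0 ≤ tm m (j + 1) - tm m j := by
      have := tm_mono m (Nat.le_succ j); simpa using sub_nonneg.2 this
    calc (tm m (j + 1) - tm m j) ^ (4 / (al + 2))
        ≤ ((2 : ℝ) ^ (m * (j + 1))) ^ (4 / (al + 2)) :=
          Real.rpow_le_rpow h1 (tm_diff m j) (by positivity)
      _ = _ := by
          rw [← Real.rpow_natCast, ← Real.rpow_mul (by norm_num), ← Real.rpow_add (by norm_num)]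
          congr 1
          push_cast
          ring
  have e2 : (z ^ 2) ^ ((al - 2) / (al + 2)) ≤
      (2 : ℝ) ^ (-((m * j : ℝ) / al) * (2 * (al - 2) / (al + 2))) * A ^ (2 * (al - 2) / (al + 2)) := by
    have hq : 0 ≤ 2 * (al - 2) / (al + 2) := by
      apply div_nonneg <;> linarith
    calc (z ^ 2) ^ ((al - 2) / (al + 2)) = z ^ (2 * (al - 2) / (al + 2)) := by
          rw [← Real.rpow_natCast z 2, ← Real.rpow_mul hz]
          congr 1
          push_cast
          ring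
      _ ≤ ((2 : ℝ) ^ (-((m * j : ℝ) / al)) * A) ^ (2 * (al - 2) / (al + 2)) :=
          Real.rpow_le_rpow hz hA hq
      _ = _ := by
          rw [Real.mul_rpow (by positivity) hA0, ← Real.rpow_mul (by norm_num)]
  have hp1 : 0 ≤ (tm m (j + 1) - tm m j) ^ (4 / (al + 2)) := by
    apply Real.rpow_nonneg
    have := tm_mono m (Nat.le_succ j); simpa using sub_nonneg.2 this
  calc Cd * (tm m (j + 1) - tm m j) ^ (4 / (al + 2)) * (z ^ 2) ^ ((al - 2) / (al + 2))
      ≤ Cd * ((2 : ℝ) ^ ((m * j : ℝ) * (4 / (al + 2))) * (2 : ℝ) ^ (4 * m / (al + 2))) *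
        ((2 : ℝ) ^ (-((m * j : ℝ) / al) * (2 * (al - 2) / (al + 2))) *
          A ^ (2 * (al - 2) / (al + 2))) := by
        apply mul_le_mul (mul_le_mul_of_nonneg_left e1 hCd) e2 (by positivity)
        positivity
    _ = ((2 : ℝ) ^ ((m * j : ℝ) * (4 / (al + 2))) *
          (2 : ℝ) ^ (-((m * j : ℝ) / al) * (2 * (al - 2) / (al + 2)))) *
        (Cd * (2 : ℝ) ^ (4 * m / (al + 2)) * A ^ (2 * (al - 2) / (al + 2))) := by ring
    _ = _ := by
        rw [← Real.rpow_add (by norm_num)]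
        congr 2
        have h3 : al + 2 ≠ 0 := by linarith
        have h4 : al ≠ 0 := by linarith
        field_simp
        ring

/-- Block bound, exponent `al`. -/
theorem blk3 {al : ℝ} (hal : 0 < al) (m j : ℕ) (Cb z : ℝ) (hCb : 0 ≤ Cb) (hz : 0 ≤ z) :
    Cb * (tm m (j + 1) - tm m j) ^ (2 / (al + 2)) * (z ^ 2) ^ (al / (al + 2)) ≤
      Cb * (2 : ℝ) ^ (2 * m / (al + 2)) *
        ((2 : ℝ) ^ ((m * j : ℝ) / al) * z) ^ (2 * al / (al + 2)) := by
  have e1 : (tm m (j + 1) - tm m j) ^ (2 / (al + 2)) ≤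
      (2 : ℝ) ^ ((m * j : ℝ) * (2 / (al + 2))) * (2 : ℝ) ^ (2 * m / (al + 2)) := by
    have h1 : 0 ≤ tm m (j + 1) - tm m j := by
      have := tm_mono m (Nat.le_succ j); simpa using sub_nonneg.2 this
    calc (tm m (j + 1) - tm m j) ^ (2 / (al + 2))
        ≤ ((2 : ℝ) ^ (m * (j + 1))) ^ (2 / (al + 2)) :=
          Real.rpow_le_rpow h1 (tm_diff m j) (by positivity)
      _ = _ := by
          rw [← Real.rpow_natCast, ← Real.rpow_mul (by norm_num), ← Real.rpow_add (by norm_num)]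
          congr 1
          push_cast
          ring
  have e2 : (z ^ 2) ^ (al / (al + 2)) = z ^ (2 * al / (al + 2)) := by
    rw [← Real.rpow_natCast z 2, ← Real.rpow_mul hz]
    congr 1
    push_cast
    ring
  rw [Real.mul_rpow (by positivity) hz, ← Real.rpow_mul (by norm_num), e2]
  have hz' : 0 ≤ z ^ (2 * al / (al + 2)) := Real.rpow_nonneg hz _
  calc Cb * (tm m (j + 1) - tm m j) ^ (2 / (al + 2)) * z ^ (2 * al / (al + 2))
      ≤ Cb * ((2 : ℝ) ^ ((m * j : ℝ) * (2 / (al + 2))) * (2 : ℝ) ^ (2 * m / (al + 2))) *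
          z ^ (2 * al / (al + 2)) := by
        apply mul_le_mul_of_nonneg_right (mul_le_mul_of_nonneg_left e1 hCb) hz'
    _ = Cb * (2 : ℝ) ^ (2 * m / (al + 2)) * ((2 : ℝ) ^ ((m * j : ℝ) * (2 / (al + 2))) *
          z ^ (2 * al / (al + 2))) := by ring
    _ = _ := by
        congr 3
        have h3 : al + 2 ≠ 0 := by linarith
        have h4 : al ≠ 0 := by linarith
        field_simp

end

end Pool.Agent.BEL.H53
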