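import Pool.Agent.BEL.StmtsU

/-!
# BEL, rows UME, UEN
-/

namespace Pool.Agent.BEL.H53

open Filter Topology Set MeasureTheory
open scoped InnerProductSpace ENNReal

theorem closed_sub {X : Type} [MeasurableSpace X] (μ : Measure X) (q : ℝ) (hq : 0 < q) (c : ℝ≥0∞) :
    IsClosed {f : Lp ℝ 2 μ | ∫⁻ x, ENNReal.ofReal (|f x| ^ q) ∂μ ≤ c} := by
  refine IsSeqClosed.isClosed ?_
  intro u f hu hf
  have h1 : TendstoInMeasure μ (fun n => (u n : X → ℝ)) atTop (f : X → ℝ) :=
    tendstoInMeasure_of_tendsto_Lp hf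
  obtain ⟨ns, hns, hae⟩ := h1.exists_seq_tendsto_ae
  have h2 : ∀ᵐ x ∂μ, ENNReal.ofReal (|f x| ^ q) =
      liminf (fun i => ENNReal.ofReal (|u (ns i) x| ^ q)) atTop := by
    filter_upwards [hae] with x hx
    have h3 : Tendsto (fun i => ENNReal.ofReal (|u (ns i) x| ^ q)) atTop
        (𝓝 (ENNReal.ofReal (|f x| ^ q))) := by
      refine (ENNReal.continuous_ofReal.tendsto _).comp ?_
      exact ((Real.continuous_rpow_const hq.le).tendsto _).comp ((continuous_abs.tendsto _).comp hx)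
    exact h3.liminf_eq.symm
  change ∫⁻ x, ENNReal.ofReal (|f x| ^ q) ∂μ ≤ c
  rw [lintegral_congr_ae h2]
  refine (lintegral_liminf_le' ?_).trans ?_
  · intro i
    have h4 : AEMeasurable (fun x => u (ns i) x) μ := (Lp.aestronglyMeasurable _).aemeasurable
    exact ((h4.abs).pow_const q).ennreal_ofReal
  · refine liminf_le_of_frequently_le' ?_
    exact Frequently.of_forall fun i => hu (ns i)

theorem ume : UmeStmt := by
  intro X _ μ _ q hq z hz
  let _ : MeasurableSpace (Lp ℝ 2 μ) := borel _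
  have _ : BorelSpace (Lp ℝ 2 μ) := ⟨rfl⟩
  have h1 : Measurable fun f : Lp ℝ 2 μ => ∫⁻ x, ENNReal.ofReal (|f x| ^ q) ∂μ :=
    measurable_of_Iic fun c => (closed_sub μ q hq c).measurableSet
  exact h1.comp_aemeasurable (hz.aemeasurable measurableSet_Ici)

theorem uen : UenStmt := by
  intro X _ μ a al b om ha hal hin z1 z2 hs
  have _ := hin.fin
  have hm := ume X μ (al + 2) (by linarith) z2 hs.c2
  have key : ∀ s t, 0 ≤ s → s ≤ t → ∫⁻ r in Icc s t, DisE μ (al + 2) z2 r ≠ ⊤ := by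
    intro s t h0 hst htop
    have h1 := hs.en s t h0 hst
    change ENNReal.ofReal (enr μ z1 z2 t) + ENNReal.ofReal (2 * a) *
      ∫⁻ r in Icc s t, DisE μ (al + 2) z2 r ≤ ENNReal.ofReal (enr μ z1 z2 s) at h1
    rw [htop, ENNReal.mul_top (by rw [Ne, ENNReal.ofReal_eq_zero]; push Not; linarith),
      add_top, top_le_iff] at h1
    exact ENNReal.ofReal_ne_top h1
  have hms : ∀ s t, 0 ≤ s → AEMeasurable (DisE μ (al + 2) z2) (volume.restrict (Icc s t)) :=
    fun s t h0 => hm.mono_measure (Measure.restrict_mono (fun x hx => h0.trans hx.1) le_rfl)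
  refine ⟨fun s t h0 hst => ⟨?_, ?_⟩, ?_⟩
  · rw [intervalIntegrable_iff_integrableOn_Icc_of_le hst]
    exact integrable_toReal_of_lintegral_ne_top (hms s t h0) (key s t h0 hst)
  · have h1 := hs.en s t h0 hst
    change ENNReal.ofReal (enr μ z1 z2 t) + ENNReal.ofReal (2 * a) *
      ∫⁻ r in Icc s t, DisE μ (al + 2) z2 r ≤ ENNReal.ofReal (enr μ z1 z2 s) at h1
    have h2 : ∫ r in s..t, Dis μ (al + 2) z2 r =
        (∫⁻ r in Icc s t, DisE μ (al + 2) z2 r).toReal := by
      rw [intervalIntegral.integral_of_le hst, ← integral_Icc_eq_integral_Ioc]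
      exact integral_toReal (hms s t h0) (ae_lt_top' (hms s t h0) (key s t h0 hst))
    have e0 : ∀ r, 0 ≤ enr μ z1 z2 r := fun r => by unfold enr; positivity
    have h3 := ENNReal.toReal_mono ENNReal.ofReal_ne_top h1
    rw [ENNReal.toReal_add ENNReal.ofReal_ne_top
      (ENNReal.mul_ne_top ENNReal.ofReal_ne_top (key s t h0 hst)), ENNReal.toReal_mul,
      ENNReal.toReal_ofReal (e0 t), ENNReal.toReal_ofReal (e0 s),
      ENNReal.toReal_ofReal (by linarith), ← h2] at h3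
    linarith
  · have h4 : ∀ n : ℕ, ∀ᵐ r ∂(volume.restrict (Icc (0:ℝ) n)), DisE μ (al + 2) z2 r < ⊤ :=
      fun n => ae_lt_top' (hms 0 n le_rfl) (key 0 n le_rfl (Nat.cast_nonneg n))
    have h5 : Ici (0:ℝ) ⊆ ⋃ n : ℕ, Icc (0:ℝ) n := by
      intro x hx
      obtain ⟨n, hn⟩ := exists_nat_ge x
      exact mem_iUnion.2 ⟨n, hx, hn⟩
    refine ae_restrict_of_ae_restrict_of_subset h5 ?_
    rw [ae_restrict_iUnion_iff]
    exact h4

end Pool.Agent.BEL.H53
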